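import Pool.Agent.Helper39.AD.One

/-!
# Bounded orders (not a result)
-/

set_option autoImplicit false
set_option linter.unusedSectionVars false

open Polynomial IsDedekindDomain NumberField nonZeroDivisors

namespace Pool.Agent.Helper39.AD

open Pool.Agent.TH954 Pool.Agent.Y791.BS Pool.Agent.Y791.BF Pool.Agent.Y791.BC
  Pool.Agent.Y791.BC.Leg Pool.Agent.Helper39.BS

/-- the order as an exponent -/
lemma val_eq_exp {k : Type} [Field k] [NumberField k] (v : HeightOneSpectrum (𝓞 k)) {a : k}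
    (ha : a ≠ 0) : v.valuation k a = WithZero.exp (- cnt v a) := by
  rw [← log_val v ha, WithZero.exp_log ((Valuation.ne_zero_iff _).2 ha)]

/-- the orders of the class are `d` -/
def Ord {k F Ω B : Type} [Field k] [NumberField k] [Field F] [Field Ω] [Field B] [Algebra F Ω]
    [Algebra k Ω] [Algebra k B] (s : GalSection k F Ω B) (g : F)
    (d : HeightOneSpectrum (𝓞 k) → ℤ) : Prop :=
  ∀ N : ℕ, 0 < N → ∀ a : k, a ≠ 0 →
    (∃ h : Ω, (∀ σ, s.s σ h = h) ∧ algebraMap F Ω g = algebraMap k Ω a * h ^ N) →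
    ∀ v : HeightOneSpectrum (𝓞 k), ∃ m : ℤ, v.valuation k a = WithZero.exp (-(d v + N * m))

section

variable {k : Type} [Field k] [NumberField k]
    {F Ω B : Type} [Field F] [Field Ω] [Field B] [Algebra k F] [Algebra F Ω]
    [Algebra k Ω] [Algebra k B] [IsScalarTower k F Ω]
    [IsAlgClosure F Ω] [IsAlgClosure k B] (s : GalSection k F Ω B)

/-- bounded orders come from an ideal -/
theorem hi_of_ord {g : F} (hg0 : g ≠ 0) {d : HeightOneSpectrum (𝓞 k) → ℤ} (hd : Ord s g d) {b : ℤ}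
    (hb : ∀ v, |d v| ≤ b) : HI s g := by
  classical
  have hΩ1 : IsAlgClosed Ω := IsAlgClosure.isAlgClosed F
  have hΩ2 : Algebra.IsAlgebraic F Ω := IsAlgClosure.isAlgebraic
  have hcF : CharZero F := charZero_of_injective_algebraMap (algebraMap k F).injective
  have hcΩ : CharZero Ω := charZero_of_injective_algebraMap (algebraMap F Ω).injective
  have hmem : algebraMap F Ω g ∈ (toSAct s).fix := (mem_fixS s).2 fun σ => (s.s σ).commutes g
  have hfin : ∀ᶠ v : HeightOneSpectrum (𝓞 k) in Filter.cofinite, d v = 0 := by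
    obtain ⟨a, ha, h, hh, e⟩ := (toSAct s).kummer (f := algebraMap F Ω g) hmem
      ((_root_.map_ne_zero _).2 hg0) (Nat.succ_pos b.toNat)
    filter_upwards [cnt_finite (a := a)] with v hv
    obtain ⟨m, hm⟩ := hd _ (Nat.succ_pos b.toNat) a ha ⟨h, (mem_fixS s).1 hh, e⟩ v
    rw [val_eq_exp v ha, hv] at hm
    have h1 : -(0 : ℤ) = -(d v + ((b.toNat.succ : ℕ) : ℤ) * m) := WithZero.exp_injective hm
    have h2 := hb v
    have hb0 : 0 ≤ b := (abs_nonneg _).trans h2
    have h3 : ((b.toNat.succ : ℕ) : ℤ) = b + 1 := by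
      rw [Nat.cast_succ, Int.toNat_of_nonneg hb0]
    rw [h3] at h1
    by_contra hne
    have h4 : (b + 1) ∣ d v := ⟨-m, by linarith⟩
    have h5 := Int.le_of_dvd (abs_pos.2 hne) ((dvd_abs _ _).2 h4)
    omega
  obtain ⟨D, hD⟩ := exists_ideal d hfin
  refine ⟨D, fun N hN a ha hh => ?_⟩
  obtain ⟨I, hI⟩ := hD N hN a ha (fun v => by
    obtain ⟨m, hm⟩ := hd N hN a ha hh v
    rw [val_eq_exp v ha] at hm
    have h1 : -cnt v a = -(d v + (N : ℤ) * m) := WithZero.exp_injective hm
    exact ⟨m, by linarith⟩)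
  exact ⟨I, by rw [hI, Units.val_mul, Units.val_pow_eq_pow_val]⟩

/-- the orders of an ideal are bounded -/
theorem ord_of_hi {g : F} (h : HI s g) : ∃ d : HeightOneSpectrum (𝓞 k) → ℤ, Ord s g d ∧
    ∃ b : ℤ, ∀ v, |d v| ≤ b := by
  classical
  obtain ⟨D, hD⟩ := h
  refine ⟨fun v => FractionalIdeal.count k v (D : FractionalIdeal (𝓞 k)⁰ k), ?_, ?_⟩
  · intro N hN a ha hh v
    obtain ⟨I, hI⟩ := hD N hN a ha hh
    obtain ⟨m, hm⟩ := orders_of D I (by rw [hI, Units.val_mul, Units.val_pow_eq_pow_val]) v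
    refine ⟨m, ?_⟩
    rw [val_eq_exp v ha]
    congr 2
    linarith
  · have h1 := Filter.eventually_cofinite.1
      (FractionalIdeal.finite_factors (D : FractionalIdeal (𝓞 k)⁰ k))
    refine ⟨∑ v ∈ h1.toFinset, |FractionalIdeal.count k v (D : FractionalIdeal (𝓞 k)⁰ k)|, ?_⟩
    intro v
    change |FractionalIdeal.count k v (D : FractionalIdeal (𝓞 k)⁰ k)| ≤ _
    by_cases hv : FractionalIdeal.count k v (D : FractionalIdeal (𝓞 k)⁰ k) = 0
    · rw [hv, abs_zero]
      exact Finset.sum_nonneg fun _ _ => abs_nonneg _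
    · exact Finset.single_le_sum (f := fun v : HeightOneSpectrum (𝓞 k) =>
        |FractionalIdeal.count k v (D : FractionalIdeal (𝓞 k)⁰ k)|)
        (fun _ _ => abs_nonneg _) (h1.mem_toFinset.2 hv)

end

end Pool.Agent.Helper39.AD
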