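import Pool.Agent.Helper39.AD.Fin

/-!
# The Kummer classes of functions at a rational point (not a result)
-/

set_option autoImplicit false
set_option linter.unusedSectionVars false

open Polynomial IsDedekindDomain NumberField

namespace Pool.Agent.Helper39.AD

open Pool.Agent.TH954 Pool.Agent.Y791.BS Pool.Agent.Y791.BF Pool.Agent.Y791.BC
  Pool.Agent.Y791.BC.Leg Pool.Agent.Helper39.BS

section val

variable {Ω : Type} [Field Ω] (W : ValuationSubring Ω)

/-- elements near one -/
lemma val_one {η : Ω} (h : W.valuation (η - 1) < 1) : W.valuation η = 1 := by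
  have h1 : η = 1 + (η - 1) := by ring
  rw [h1, Valuation.map_one_add_of_lt _ h]

/-- powers of elements near one -/
lemma vpow_sub {η : Ω} (h : W.valuation (η - 1) < 1) (i : ℕ) : W.valuation (η ^ i - 1) < 1 := by
  have hη : W.valuation η ≤ 1 := (val_one W h).le
  rw [← mul_geom_sum, map_mul]
  have h2 : W.valuation (∑ j ∈ Finset.range i, η ^ j) ≤ 1 :=
    Valuation.map_sum_le _ fun j _ => by
      rw [map_pow]
      exact pow_le_one' hη j
  calc _ ≤ W.valuation (η - 1) * 1 := mul_le_mul_right h2 _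
    _ < 1 := by rwa [mul_one]

/-- a root near one -/
lemma exists_root [IsAlgClosed Ω] [CharZero Ω] {u : Ω} (hu : W.valuation (u - 1) < 1) {N : ℕ}
    (hN : 0 < N) : ∃ w : Ω, w ^ N = u ∧ W.valuation (w - 1) < 1 := by
  have : NeZero N := ⟨hN.ne'⟩
  obtain ⟨w0, hw0⟩ := IsAlgClosed.exists_pow_nat_eq u hN
  obtain ⟨ζ, hζ⟩ := HasEnoughRootsOfUnity.exists_primitiveRoot Ω N
  have h1 := congrArg (eval w0) (X_pow_sub_one_eq_prod hN hζ)
  rw [eval_prod] at h1
  simp only [eval_sub, eval_pow, eval_X, eval_one, eval_C] at h1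
  rw [hw0] at h1
  obtain ⟨z, hz, hzv⟩ : ∃ z ∈ nthRootsFinset N (1 : Ω), W.valuation (w0 - z) < 1 := by
    by_contra hcon
    push Not at hcon
    rw [h1, map_prod] at hu
    exact absurd hu (not_lt.2 (Finset.one_le_prod' hcon))
  have hzN : z ^ N = 1 := (mem_nthRootsFinset hN _).1 hz
  have hz0 : z ≠ 0 := by
    rintro rfl
    rw [zero_pow hN.ne'] at hzN
    exact zero_ne_one hzN
  have hzv1 : W.valuation z = 1 := by
    have h2 : W.valuation z ^ N = 1 := by rw [← map_pow, hzN, map_one]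
    exact (pow_eq_one_iff_of_nonneg zero_le hN.ne').1 h2
  refine ⟨w0 * z⁻¹, by rw [mul_pow, inv_pow, hzN, hw0, inv_one, mul_one], ?_⟩
  have h3 : w0 * z⁻¹ - 1 = (w0 - z) * z⁻¹ := by
    field_simp
  rw [h3, map_mul, map_inv₀, hzv1, inv_one, mul_one]
  exact hzv

/-- the root near one is unique -/
lemma root_unique (hNat : ∀ n : ℕ, n ≠ 0 → W.valuation (n : Ω) = 1) {w w' : Ω}
    (hw : W.valuation (w - 1) < 1) (hw' : W.valuation (w' - 1) < 1) {N : ℕ} (hN : 0 < N)
    (h : w ^ N = w' ^ N) : w = w' := by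
  have h1 := val_one W hw'
  have hw0 : w' ≠ 0 := by
    rintro rfl
    rw [map_zero] at h1
    exact zero_ne_one h1
  set η := w / w' with hη
  have hηN : η ^ N = 1 := by
    rw [hη, div_pow, h, div_self (pow_ne_zero _ hw0)]
  have hηv : W.valuation (η - 1) < 1 := by
    have h2 : η - 1 = ((w - 1) - (w' - 1)) * w'⁻¹ := by
      rw [hη]
      field_simp
      ring
    rw [h2, map_mul, map_inv₀, h1, inv_one, mul_one]
    exact Valuation.map_sub_lt _ hw hw'
  have hη1 : η = 1 := by
    by_contra hne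
    have h3 : ∑ i ∈ Finset.range N, η ^ i = 0 := by
      have h4 := mul_geom_sum η N
      rw [hηN, sub_self] at h4
      exact (mul_eq_zero.1 h4).resolve_left (sub_ne_zero.2 hne)
    have h5 : ∑ i ∈ Finset.range N, (η ^ i - 1) = -(N : Ω) := by
      rw [Finset.sum_sub_distrib, h3]
      simp
    have h6 : W.valuation (∑ i ∈ Finset.range N, (η ^ i - 1)) < 1 :=
      Valuation.map_sum_lt _ one_ne_zero fun i _ => vpow_sub W hηv i
    rw [h5, Valuation.map_neg, hNat N hN.ne'] at h6
    exact lt_irrefl _ h6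
  rw [hη, div_eq_one_iff_eq hw0] at hη1
  exact hη1

end val

section

variable {k : Type} [Field k] [NumberField k]
    {F Ω B : Type} [Field F] [Field Ω] [Field B] [Algebra k F] [Algebra F Ω]
    [Algebra k Ω] [Algebra k B] [IsScalarTower k F Ω]
    [IsAlgClosure F Ω] [IsAlgClosure k B] (s : GalSection k F Ω B)

/-- fixed algebraic elements -/
lemma fixed_alg {z : Ω} (hz : ∀ σ, s.s σ z = z) (ha : IsAlgebraic k z) :
    ∃ b : k, algebraMap k Ω b = z := by
  have hΩ1 : IsAlgClosed Ω := IsAlgClosure.isAlgClosed F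
  have hΩ2 : Algebra.IsAlgebraic F Ω := IsAlgClosure.isAlgebraic
  set A := toSAct s with hA
  obtain ⟨w, hw⟩ := alg_range A.j ha
  have hw' : A.j w = z := hw
  obtain ⟨c, hc⟩ := A.fix_j (z := w) (by rw [hw']; exact (mem_fixS s).2 hz)
  exact ⟨c, by rw [← hw', ← hc, A.j.commutes]⟩

/-- **The backward implication.** -/
theorem conv {O : ValuationSubring F} (hO : s.ArisesFrom O) :
    ∃ f : F, Transcendental k f ∧ ∀ c : ℕ, HI s (f - (c : F)) := by
  classical
  have hΩ1 : IsAlgClosed Ω := IsAlgClosure.isAlgClosed F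
  have hΩ2 : Algebra.IsAlgebraic F Ω := IsAlgClosure.isAlgebraic
  have hcF : CharZero F := charZero_of_injective_algebraMap (algebraMap k F).injective
  have hcΩ : CharZero Ω := charZero_of_injective_algebraMap (algebraMap F Ω).injective
  obtain ⟨hOt, hOk, -, W, hWO, hWs⟩ := hO
  have hmem : ∀ z : F, algebraMap F Ω z ∈ W ↔ z ∈ O := fun z => by
    rw [← hWO]
    rfl
  -- a pole
  obtain ⟨x, hx⟩ : ∃ x : F, x ∉ O := by
    by_contra hcon
    push Not at hcon
    exact hOt (eq_top_iff.2 fun x _ => hcon x)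
  have hxt : Transcendental k x := by
    intro h
    apply hx
    let j : k →+* O := (algebraMap k F).codRestrict O hOk
    have h1 : IsIntegral O x := by
      obtain ⟨p, hp, hpx⟩ := h.isIntegral
      refine ⟨p.map j, hp.map j, ?_⟩
      rw [eval₂_map]
      exact hpx
    obtain ⟨z, hz⟩ := IsIntegrallyClosed.isIntegral_iff.1 h1
    rw [← hz]
    exact z.2
  have hx0 : x ≠ 0 := by
    rintro rfl
    exact hx (zero_mem _)
  set y : Ω := (algebraMap F Ω x)⁻¹ with hy
  have hyv : W.valuation y < 1 := by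
    have h1 : ¬ W.valuation (algebraMap F Ω x) ≤ 1 := by
      rw [ValuationSubring.valuation_le_one_iff, hmem]
      exact hx
    rw [hy, map_inv₀]
    exact inv_lt_one_of_one_lt₀ (not_le.1 h1)
  have hNat : ∀ n : ℕ, n ≠ 0 → W.valuation (n : Ω) = 1 := by
    intro n hn
    refine le_antisymm ?_ ?_
    · rw [ValuationSubring.valuation_le_one_iff]
      exact natCast_mem W n
    · have h1 : W.valuation ((n : Ω)⁻¹) ≤ 1 := by
        rw [ValuationSubring.valuation_le_one_iff]
        have h2 := (hmem (algebraMap k F ((n : k)⁻¹))).2 (hOk _)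
        simpa using h2
      have hn0 : (n : Ω) ≠ 0 := Nat.cast_ne_zero.2 hn
      rw [map_inv₀] at h1
      exact (inv_le_one₀ (by
        rw [zero_lt_iff]
        exact (Valuation.ne_zero_iff _).2 hn0)).1 h1
  have hmax : ∀ σ (z : Ω), W.valuation z < 1 → W.valuation (s.s σ z) < 1 := by
    intro σ z hz
    by_cases hz0 : z = 0
    · rw [hz0, map_zero, map_zero]
      exact zero_lt_one
    · have h1 : ¬ W.valuation (z⁻¹) ≤ 1 := by
        rw [map_inv₀, not_le]
        exact (one_lt_inv₀ (by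
          rw [zero_lt_iff]
          exact (Valuation.ne_zero_iff _).2 hz0)).2 hz
      rw [ValuationSubring.valuation_le_one_iff, ← hWs σ, ← ValuationSubring.valuation_le_one_iff,
        map_inv₀, map_inv₀, not_le] at h1
      exact (one_lt_inv₀ (by
          rw [zero_lt_iff]
          exact (Valuation.ne_zero_iff _).2 (by
            rw [Ne, map_eq_zero_iff _ (s.s σ).injective]
            exact hz0))).1 h1
  refine ⟨x⁻¹ - 1, ?_, ?_⟩
  · intro h
    apply hxt
    have h1 := (h.add (isAlgebraic_one (R := k) (A := F))).inv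
    rwa [sub_add_cancel, inv_inv] at h1
  intro c
  have hc0 : ((c : k) + 1) ≠ 0 := by exact_mod_cast Nat.succ_ne_zero c
  have hcΩ0 : ((c : Ω) + 1) ≠ 0 := by exact_mod_cast Nat.succ_ne_zero c
  have hcF0 : ((c : F) + 1) ≠ 0 := by exact_mod_cast Nat.succ_ne_zero c
  set u : Ω := 1 - y * ((c : Ω) + 1)⁻¹ with hu
  have huF : u = algebraMap F Ω (1 - x⁻¹ * ((c : F) + 1)⁻¹) := by
    rw [hu, hy]
    simp
  have huv : W.valuation (u - 1) < 1 := by
    have h1 : u - 1 = -(y * ((c : Ω) + 1)⁻¹) := by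
      rw [hu]
      ring
    have h2 := hNat (c + 1) (Nat.succ_ne_zero c)
    push_cast at h2
    have h3 : W.valuation (((c : Ω) + 1)⁻¹) = 1 := by rw [map_inv₀, h2, inv_one]
    rw [h1, Valuation.map_neg, map_mul, h3, mul_one]
    exact hyv
  have hfc : algebraMap F Ω (x⁻¹ - 1 - (c : F)) = algebraMap k Ω (-((c : k) + 1)) * u := by
    rw [hu, hy]
    simp only [map_sub, map_inv₀, map_one, map_natCast, map_neg, map_add]
    field_simp
    ring
  have hξ : (-((c : k) + 1)) ≠ 0 := neg_ne_zero.2 hc0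
  refine ⟨Units.mk0 (FractionalIdeal.spanSingleton _ (-((c : k) + 1)))
    (FractionalIdeal.spanSingleton_ne_zero_iff.2 hξ), ?_⟩
  intro N hN a ha
  rintro ⟨h, hh, e⟩
  obtain ⟨w, hwu, hwv⟩ := exists_root W huv hN
  have hwf : ∀ σ, s.s σ w = w := by
    intro σ
    refine root_unique W hNat ?_ hwv hN ?_
    · have h1 := hmax σ _ hwv
      rwa [map_sub, map_one] at h1
    · rw [← map_pow, hwu, huF]
      exact (s.s σ).commutes _
  have hfc0 : algebraMap F Ω (x⁻¹ - 1 - (c : F)) ≠ 0 := by
    rw [hfc]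
    refine mul_ne_zero ((_root_.map_ne_zero _).2 hξ) ?_
    intro h0
    rw [h0] at huv
    simp at huv
  have hh0 : h ≠ 0 := by
    rintro rfl
    rw [zero_pow hN.ne', mul_zero] at e
    exact hfc0 e
  have hξΩ : algebraMap k Ω (-((c : k) + 1)) ≠ 0 := (_root_.map_ne_zero _).2 hξ
  have hz : (w / h) ^ N = algebraMap k Ω (a / (-((c : k) + 1))) := by
    rw [div_pow, map_div₀, div_eq_div_iff (pow_ne_zero _ hh0) hξΩ, ← e, hfc, hwu]
    ring
  obtain ⟨b, hb⟩ := fixed_alg s (z := w / h) (fun σ => by rw [map_div₀, hwf σ, hh σ])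
    (IsAlgebraic.of_pow hN (by
      rw [hz]
      exact isAlgebraic_algebraMap _))
  have hab : a = (-((c : k) + 1)) * b ^ N := by
    rw [← hb, ← map_pow] at hz
    have h1 := (algebraMap k Ω).injective hz
    rw [h1]
    field_simp
  have hb0 : b ≠ 0 := by
    rintro rfl
    rw [zero_pow hN.ne', mul_zero] at hab
    exact ha hab
  refine ⟨Units.mk0 (FractionalIdeal.spanSingleton _ b)
    (FractionalIdeal.spanSingleton_ne_zero_iff.2 hb0), ?_⟩
  rw [Units.val_mk0, Units.val_mk0, FractionalIdeal.spanSingleton_pow,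
    FractionalIdeal.spanSingleton_mul_spanSingleton, hab]

end

end Pool.Agent.Helper39.AD
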