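import Pool.Agent.Helper39.AD.Norm
import Mathlib.RingTheory.FractionalIdeal.Norm

/-!
# Kummer classes with ideals and the norms of the local values (not a result)
-/

set_option autoImplicit false
set_option linter.unusedSectionVars false

open Polynomial IsDedekindDomain NumberField nonZeroDivisors

namespace Pool.Agent.Helper39.AD

open Pool.Agent.TH954 Pool.Agent.Y791.BF Pool.Agent.Helper88.FX.E2

/-- the Kummer classes of `g` have an ideal -/
def HasIdeal (k : Type) [Field k] [NumberField k] {F0 : Type} [Field F0] [Algebra k F0] (g : F0) :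
    Prop :=
  ∃ D : (FractionalIdeal (𝓞 k)⁰ k)ˣ, ∀ N : ℕ, 0 < N → ∀ a : k, a ≠ 0 →
    (∃ h : F0, g = algebraMap k F0 a * h ^ N) →
    ∃ I : (FractionalIdeal (𝓞 k)⁰ k)ˣ,
      FractionalIdeal.spanSingleton (𝓞 k)⁰ a = ((D * I ^ N : (FractionalIdeal (𝓞 k)⁰ k)ˣ) :
        FractionalIdeal (𝓞 k)⁰ k)

/-- the norms of the Kummer classes of `g` are the classes of a rational number -/
def RatNorm (k : Type) [Field k] [NumberField k] {F0 : Type} [Field F0] [Algebra k F0] (g : F0) :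
    Prop :=
  ∃ r : ℚ, r ≠ 0 ∧ ∀ N : ℕ, 0 < N → ∀ a : k, a ≠ 0 →
    (∃ h : F0, g = algebraMap k F0 a * h ^ N) → ∃ s : ℚ, Algebra.norm ℚ a = r * s ^ N

variable {k : Type} [Field k] [NumberField k] {F0 : Type} [Field F0] [Algebra k F0]

/-- the norms of the classes are those of a rational number -/
theorem exists_rat (hint : ∀ x : F0, IsAlgebraic k x → ∃ c, algebraMap k F0 c = x)
    (hK : ∀ x : F0, x ≠ 0 → ∀ N : ℕ, 0 < N → ∃ (a : k) (g : F0), a ≠ 0 ∧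
      x = algebraMap k F0 a * g ^ N) {g : F0} (hg : g ≠ 0) (hI : HasIdeal k g) :
    ∃ r : ℚ, r ≠ 0 ∧ ∀ N : ℕ, 0 < N → ∀ a : k, a ≠ 0 →
      (∃ h : F0, g = algebraMap k F0 a * h ^ (2 * N)) →
      ∃ s : ℚ, s ≠ 0 ∧ Algebra.norm ℚ a = r * s ^ (2 * N) := by
  obtain ⟨D, hD⟩ := hI
  obtain ⟨a2, g2, ha2, hg2⟩ := hK g hg 2 two_pos
  have hn0 : ∀ a : k, a ≠ 0 → Algebra.norm ℚ a ≠ 0 := fun a ha => by
    rw [Algebra.norm_ne_zero_iff]
    exact ha
  have hun : ∀ I : (FractionalIdeal (𝓞 k)⁰ k)ˣ,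
      FractionalIdeal.absNorm (I : FractionalIdeal (𝓞 k)⁰ k) ≠ 0 := fun I h =>
    I.ne_zero (FractionalIdeal.absNorm_eq_zero_iff.1 h)
  refine ⟨SignType.sign (Algebra.norm ℚ a2) *
    FractionalIdeal.absNorm (D : FractionalIdeal (𝓞 k)⁰ k), mul_ne_zero ?_ (hun D), ?_⟩
  · rcases lt_or_gt_of_ne (hn0 a2 ha2) with h | h
    · rw [sign_neg h]
      norm_num
    · rw [sign_pos h]
      norm_num
  intro N hN a ha hh
  obtain ⟨I, hI⟩ := hD (2 * N) (by omega) a ha hh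
  obtain ⟨h, hh⟩ := hh
  have habs : |Algebra.norm ℚ a| = FractionalIdeal.absNorm (D : FractionalIdeal (𝓞 k)⁰ k) *
      FractionalIdeal.absNorm (I : FractionalIdeal (𝓞 k)⁰ k) ^ (2 * N) := by
    rw [← FractionalIdeal.absNorm_span_singleton (𝓞 k), hI, Units.val_mul, Units.val_pow_eq_pow_val,
      map_mul, map_pow]
  -- the sign
  have hh0 : h ≠ 0 := by
    rintro rfl
    rw [zero_pow (by omega), mul_zero] at hh
    exact hg hh
  have hg20 : g2 ≠ 0 := by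
    rintro rfl
    rw [zero_pow (by omega), mul_zero] at hg2
    exact hg hg2
  have haF : algebraMap k F0 a2 ≠ 0 := (_root_.map_ne_zero _).2 ha2
  have haF' : algebraMap k F0 a ≠ 0 := (_root_.map_ne_zero _).2 ha
  have hz : (g2 / h ^ N) ^ 2 = algebraMap k F0 (a / a2) := by
    rw [map_div₀, div_pow, ← pow_mul, mul_comm N 2, div_eq_div_iff (pow_ne_zero _ hh0) haF]
    rw [← hh, hg2]
    ring
  obtain ⟨b, hb⟩ := hint (g2 / h ^ N) (by
    refine IsAlgebraic.of_pow two_pos ?_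
    rw [hz]
    exact isAlgebraic_algebraMap _)
  have hb2 : a = a2 * b ^ 2 := by
    apply (algebraMap k F0).injective
    rw [map_mul, map_pow, hb, hz, map_div₀]
    field_simp
  have hb0 : b ≠ 0 := by
    rintro rfl
    rw [zero_pow two_ne_zero, mul_zero] at hb2
    exact ha hb2
  have hsg : SignType.sign (Algebra.norm ℚ a) = SignType.sign (Algebra.norm ℚ a2) := by
    have h1 : 0 < Algebra.norm ℚ b ^ 2 := by
      have := hn0 b hb0
      positivity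
    rw [hb2, map_mul, map_pow, sign_mul, sign_pos h1, mul_one]
  refine ⟨FractionalIdeal.absNorm (I : FractionalIdeal (𝓞 k)⁰ k), hun I, ?_⟩
  rw [mul_assoc, ← habs, ← hsg]
  exact (sign_mul_abs _).symm

theorem ratNorm (hint : ∀ x : F0, IsAlgebraic k x → ∃ c, algebraMap k F0 c = x)
    (hK : ∀ x : F0, x ≠ 0 → ∀ N : ℕ, 0 < N → ∃ (a : k) (g : F0), a ≠ 0 ∧
      x = algebraMap k F0 a * g ^ N) {g : F0} (hg : g ≠ 0) (hI : HasIdeal k g) :
    RatNorm k g := by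
  obtain ⟨r, hr0, hr⟩ := exists_rat hint hK hg hI
  refine ⟨r, hr0, fun N hN a ha => ?_⟩
  rintro ⟨h, hh⟩
  obtain ⟨a', h', ha', hh'⟩ := hK g hg (2 * N) (by omega)
  obtain ⟨s, hs0, hs⟩ := hr N hN a' ha' ⟨h', hh'⟩
  have hh0 : h ≠ 0 := by
    rintro rfl
    rw [zero_pow (by omega), mul_zero] at hh
    exact hg hh
  have hh0' : h' ≠ 0 := by
    rintro rfl
    rw [zero_pow (by omega), mul_zero] at hh'
    exact hg hh'
  have haF' : algebraMap k F0 a' ≠ 0 := (_root_.map_ne_zero _).2 ha'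
  have hz : (h' ^ 2 / h) ^ N = algebraMap k F0 (a / a') := by
    rw [map_div₀, div_pow, ← pow_mul, div_eq_div_iff (pow_ne_zero _ hh0) haF']
    rw [← hh, hh']
    ring
  obtain ⟨b, hb⟩ := hint (h' ^ 2 / h) (by
    refine IsAlgebraic.of_pow hN ?_
    rw [hz]
    exact isAlgebraic_algebraMap _)
  have hb2 : a = a' * b ^ N := by
    apply (algebraMap k F0).injective
    rw [map_mul, map_pow, hb, hz, map_div₀]
    field_simp
  refine ⟨s ^ 2 * Algebra.norm ℚ b, ?_⟩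
  rw [hb2, map_mul, map_pow, hs, mul_pow, ← pow_mul]
  ring

/-- **The local values are roots of one polynomial with rational coefficients.** -/
theorem core (hint : ∀ x : F0, IsAlgebraic k x → ∃ c, algebraMap k F0 c = x)
    (hK : ∀ x : F0, x ≠ 0 → ∀ N : ℕ, 0 < N → ∃ (a : k) (g : F0), a ≠ 0 ∧
      x = algebraMap k F0 a * g ^ N)
    (q : ∀ i : PlF k, Plc k F0 i.Lv) (hchi : ∀ i : PlF k, CharZero i.Lv)
    {y : F0} (hy : ∀ c : ℕ, y - (c : F0) ≠ 0)
    (hI : ∀ c : ℕ, c < 2 * Module.finrank ℚ k + 1 → RatNorm k (y - (c : F0)))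
    {K1 Ω : Type} [Field K1] [Field Ω] [CharZero Ω] [IsAlgClosed Ω]
    (ψ : K1 →+* Ω) (σ' : (k →ₐ[ℚ] Ω) → (k →+* K1)) (hσ : ∀ σ a, ψ (σ' σ a) = σ a) :
    ∃ Ψ : ℚ[X], Ψ ≠ 0 ∧ ∀ (i : PlF k) (φ : K1 →+* i.Lv) (σ : k →ₐ[ℚ] Ω),
      i.φ = φ.comp (σ' σ) → ∀ u : i.Lv, (q i).val y u →
        (haveI := hchi i; (Ψ.map (algebraMap ℚ i.Lv)).eval u = 0) := by
  classical
  set n := Module.finrank ℚ k with hn
  have hr : ∀ c : ℕ, ∃ r : ℚ, r ≠ 0 ∧ (c < 2 * n + 1 → ∀ N : ℕ, 0 < N → ∀ a : k, a ≠ 0 →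
      (∃ h : F0, y - (c : F0) = algebraMap k F0 a * h ^ (2 * N)) →
      ∃ s : ℚ, s ≠ 0 ∧ Algebra.norm ℚ a = r * s ^ (2 * N)) := by
    intro c
    by_cases hc : c < 2 * n + 1
    · obtain ⟨r, hr0, hr⟩ := hI c hc
      refine ⟨r, hr0, fun _ N hN a ha h => ?_⟩
      obtain ⟨s, hs⟩ := hr (2 * N) (by omega) a ha h
      refine ⟨s, ?_, hs⟩
      rintro rfl
      rw [zero_pow (by omega), mul_zero, Algebra.norm_eq_zero_iff] at hs
      exact ha hs
    · exact ⟨1, one_ne_zero, fun h => absurd h hc⟩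
  choose r hr0 hr using hr
  obtain ⟨Ψ, hΨ0, hΨ⟩ := interp n r hr0
  refine ⟨Ψ, hΨ0, ?_⟩
  intro i φ σ hφ u hu
  have hch := hchi i
  refine hΨ i.Lv (nm q y σ' i φ) (nm_monic q y σ' i φ) (nm_natDegree_le q y σ' i φ) ?_ u ?_
  · intro c hc c' hc' h1 h2
    -- the quotient is divisible
    set η : i.Lv := (nm q y σ' i φ).eval (c : i.Lv) * (r c' : i.Lv) /
      ((nm q y σ' i φ).eval (c' : i.Lv) * (r c : i.Lv)) with hη
    have hrc : (r c : i.Lv) ≠ 0 := by exact_mod_cast hr0 c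
    have hrc' : (r c' : i.Lv) ≠ 0 := by exact_mod_cast hr0 c'
    have hη0 : η ≠ 0 := div_ne_zero (mul_ne_zero h1 hrc') (mul_ne_zero h2 hrc)
    have hη1 : η = 1 := by
      by_contra hne
      obtain ⟨N, hN, hroot⟩ := Pool.Agent.Helper39.BS.not_pow i.v hη0 hne
      obtain ⟨a, g, ha, hg⟩ := hK _ (hy c) (2 * N) (by omega)
      obtain ⟨a', g', ha', hg'⟩ := hK _ (hy c') (2 * N) (by omega)
      obtain ⟨γ, hγ0, hγ⟩ := nm_class q y ψ σ' hσ i φ (M := 2 * N) (by omega) ha ha' hg hg' h1 h2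
      obtain ⟨s, hs0, hs⟩ := hr c hc N hN a ha ⟨g, hg⟩
      obtain ⟨s', hs0', hs'⟩ := hr c' hc' N hN a' ha' ⟨g', hg'⟩
      rw [hs, hs'] at hγ
      push_cast at hγ
      have hsL : (s : i.Lv) ≠ 0 := by exact_mod_cast hs0
      have hsL' : (s' : i.Lv) ≠ 0 := by exact_mod_cast hs0'
      apply hroot ((γ * (s : i.Lv) / (s' : i.Lv)) ^ 2)
      rw [← pow_mul, hη, div_pow, mul_pow, div_eq_div_iff (pow_ne_zero _ hsL')
        (mul_ne_zero h2 hrc)]
      linear_combination -hγ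
    rw [hη, div_eq_one_iff_eq (mul_ne_zero h2 hrc)] at hη1
    exact hη1
  · have h3 : (ff q y i (φ.comp (σ' σ))).eval u = 0 := by
      rw [← hφ]
      have h4 : ff q y i i.φ = fac (q i) y := rfl
      rw [h4]
      unfold fac
      obtain ⟨hyW, hu'⟩ := hu
      rw [dif_pos hyW, hu']
      simp
    unfold nm
    rw [eval_prod]
    exact Finset.prod_eq_zero (Finset.mem_univ σ) h3

end Pool.Agent.Helper39.AD
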