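import Pool.Agent.Helper39.AD.Core
import Pool.Agent.Helper39.AD.Int2

/-!
# Kummer classes of quotients and the norms of the local values (not a result)
-/

set_option autoImplicit false
set_option linter.unusedSectionVars false

open Polynomial IsDedekindDomain NumberField nonZeroDivisors

namespace Pool.Agent.Helper39.AD

open Pool.Agent.TH954 Pool.Agent.Y791.BF Pool.Agent.Helper88.FX.E2

variable {k : Type} [Field k] [NumberField k] {F0 : Type} [Field F0] [Algebra k F0]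

/-- **The local values are roots of one polynomial with rational coefficients.** -/
theorem core2 (hK : ∀ x : F0, x ≠ 0 → ∀ N : ℕ, 0 < N → ∃ (a : k) (g : F0), a ≠ 0 ∧
      x = algebraMap k F0 a * g ^ N)
    (q : ∀ i : PlF k, Plc k F0 i.Lv) (hchi : ∀ i : PlF k, CharZero i.Lv)
    {y : F0} (hy : ∀ c : ℕ, y - (c : F0) ≠ 0)
    {G : Finset ℕ} (hG : 2 * Module.finrank ℚ k + 1 ≤ G.card) (c0 : ℕ)
    (hI : ∀ c ∈ G, RatNorm k ((y - (c : F0)) / (y - (c0 : F0))))
    {K1 Ω : Type} [Field K1] [Field Ω] [CharZero Ω] [IsAlgClosed Ω]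
    (ψ : K1 →+* Ω) (σ' : (k →ₐ[ℚ] Ω) → (k →+* K1)) (hσ : ∀ σ a, ψ (σ' σ a) = σ a) :
    ∃ Ψ : ℚ[X], Ψ ≠ 0 ∧ ∀ (i : PlF k) (φ : K1 →+* i.Lv) (σ : k →ₐ[ℚ] Ω),
      i.φ = φ.comp (σ' σ) → ∀ u : i.Lv, (q i).val y u →
        (haveI := hchi i; (Ψ.map (algebraMap ℚ i.Lv)).eval u = 0) := by
  classical
  set n := Module.finrank ℚ k with hn
  have hr : ∀ c : ℕ, ∃ r : ℚ, r ≠ 0 ∧ (c ∈ G → ∀ N : ℕ, 0 < N → ∀ a : k, a ≠ 0 →
      (∃ h : F0, (y - (c : F0)) / (y - (c0 : F0)) = algebraMap k F0 a * h ^ N) →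
      ∃ s : ℚ, Algebra.norm ℚ a = r * s ^ N) := by
    intro c
    by_cases hc : c ∈ G
    · obtain ⟨r, hr0, hr⟩ := hI c hc
      exact ⟨r, hr0, fun _ => hr⟩
    · exact ⟨1, one_ne_zero, fun h => absurd h hc⟩
  choose r hr0 hr using hr
  obtain ⟨Ψ, hΨ0, hΨ⟩ := interp2 n G hG r hr0
  refine ⟨Ψ, hΨ0, ?_⟩
  intro i φ σ hφ u hu
  have hch := hchi i
  refine hΨ i.Lv (nm q y σ' i φ) (nm_monic q y σ' i φ) (nm_natDegree_le q y σ' i φ) ?_ u ?_
  · intro c hc c' hc' h1 h2
    -- the quotient is divisible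
    set η : i.Lv := (nm q y σ' i φ).eval (c : i.Lv) * (r c' : i.Lv) /
      ((nm q y σ' i φ).eval (c' : i.Lv) * (r c : i.Lv)) with hη
    have hrc : (r c : i.Lv) ≠ 0 := by exact_mod_cast hr0 c
    have hrc' : (r c' : i.Lv) ≠ 0 := by exact_mod_cast hr0 c'
    have hη0 : η ≠ 0 := div_ne_zero (mul_ne_zero h1 hrc') (mul_ne_zero h2 hrc)
    have hη1 : η = 1 := by
      by_contra hne
      obtain ⟨N, hN, hroot⟩ := Pool.Agent.Helper39.BS.not_pow i.v hη0 hne
      obtain ⟨a, g, ha, hg⟩ := hK _ (hy c) (2 * N) (by omega)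
      obtain ⟨a', g', ha', hg'⟩ := hK _ (hy c') (2 * N) (by omega)
      obtain ⟨γ, hγ0, hγ⟩ := nm_class q y ψ σ' hσ i φ (M := 2 * N) (by omega) ha ha' hg hg' h1 h2
      obtain ⟨b, w, hb, hw⟩ := hK _ (hy c0) (2 * N) (by omega)
      have hw0 : w ≠ 0 := by
        rintro rfl
        rw [zero_pow (by omega), mul_zero] at hw
        exact hy c0 hw
      have hbF : algebraMap k F0 b ≠ 0 := (_root_.map_ne_zero _).2 hb
      have hq : ∀ (c : ℕ) (a : k) (g : F0), y - (c : F0) = algebraMap k F0 a * g ^ (2 * N) →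
          (y - (c : F0)) / (y - (c0 : F0)) = algebraMap k F0 (a / b) * (g / w) ^ (2 * N) := by
        intro c a g e
        rw [e, hw, map_div₀, div_pow]
        field_simp
      obtain ⟨s, hs⟩ := hr c hc (2 * N) (by omega) (a / b) (div_ne_zero ha hb) ⟨_, hq c a g hg⟩
      obtain ⟨s', hs'⟩ := hr c' hc' (2 * N) (by omega) (a' / b) (div_ne_zero ha' hb)
        ⟨_, hq c' a' g' hg'⟩
      have hnb : Algebra.norm ℚ b ≠ 0 := by
        rw [Algebra.norm_ne_zero_iff]
        exact hb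
      have hna : Algebra.norm ℚ a ≠ 0 := by
        rw [Algebra.norm_ne_zero_iff]
        exact ha
      have hna' : Algebra.norm ℚ a' ≠ 0 := by
        rw [Algebra.norm_ne_zero_iff]
        exact ha'
      replace hs : Algebra.norm ℚ a = r c * s ^ (2 * N) * Algebra.norm ℚ b := by
        rw [← hs, ← map_mul, div_mul_cancel₀ _ hb]
      replace hs' : Algebra.norm ℚ a' = r c' * s' ^ (2 * N) * Algebra.norm ℚ b := by
        rw [← hs', ← map_mul, div_mul_cancel₀ _ hb]
      have hs0 : s ≠ 0 := by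
        rintro rfl
        rw [zero_pow (by omega), mul_zero, zero_mul] at hs
        exact hna hs
      have hs0' : s' ≠ 0 := by
        rintro rfl
        rw [zero_pow (by omega), mul_zero, zero_mul] at hs'
        exact hna' hs'
      rw [hs, hs'] at hγ
      push_cast at hγ
      have hsL : (s : i.Lv) ≠ 0 := by exact_mod_cast hs0
      have hsL' : (s' : i.Lv) ≠ 0 := by exact_mod_cast hs0'
      have hnbL : ((Algebra.norm ℚ b : ℚ) : i.Lv) ≠ 0 := by exact_mod_cast hnb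
      have hγ2 : (nm q y σ' i φ).eval (c : i.Lv) * ((r c' : i.Lv) * (s' : i.Lv) ^ (2 * N)) =
          (nm q y σ' i φ).eval (c' : i.Lv) * ((r c : i.Lv) * (s : i.Lv) ^ (2 * N)) *
            γ ^ (2 * N) := by
        apply mul_right_cancel₀ hnbL
        linear_combination hγ
      apply hroot ((γ * (s : i.Lv) / (s' : i.Lv)) ^ 2)
      rw [← pow_mul, hη, div_pow, mul_pow, div_eq_div_iff (pow_ne_zero _ hsL')
        (mul_ne_zero h2 hrc)]
      linear_combination -hγ2
    rw [hη, div_eq_one_iff_eq (mul_ne_zero h2 hrc)] at hη1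
    exact hη1
  · have h3 : (ff q y i (φ.comp (σ' σ))).eval u = 0 := by
      rw [← hφ]
      have h4 : ff q y i i.φ = fac (q i) y := rfl
      rw [h4]
      unfold fac
      obtain ⟨hyW, hu'⟩ := hu
      rw [dif_pos hyW, hu']
      simp
    unfold nm
    rw [eval_prod]
    exact Finset.prod_eq_zero (Finset.mem_univ σ) h3

end Pool.Agent.Helper39.AD
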