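import Pool.Agent.Helper39.AD.Main
import Pool.Agent.Helper39.BS.Res

/-!
# Sections for which the norms of some Kummer classes are rational (not a result)
-/

set_option autoImplicit false
set_option linter.unusedSectionVars false

open Polynomial IsDedekindDomain NumberField

namespace Pool.Agent.Helper39.AD

open Pool.Agent.TH954 Pool.Agent.Y791.BS Pool.Agent.Y791.BF Pool.Agent.Y791.BC
  Pool.Agent.Y791.BC.Leg Pool.Agent.Helper39.BS

/-- the class of `g` has rational norms -/
def RN {k F Ω B : Type} [Field k] [NumberField k] [Field F] [Field Ω] [Field B] [Algebra F Ω]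
    [Algebra k Ω] [Algebra k B] (s : GalSection k F Ω B) (g : F) : Prop :=
  ∃ r : ℚ, r ≠ 0 ∧ ∀ N : ℕ, 0 < N → ∀ a : k, a ≠ 0 →
    (∃ h : Ω, (∀ σ, s.s σ h = h) ∧ algebraMap F Ω g = algebraMap k Ω a * h ^ N) →
    ∃ t : ℚ, Algebra.norm ℚ a = r * t ^ N

/-- the class of `g` has an ideal -/
def HI {k F Ω B : Type} [Field k] [NumberField k] [Field F] [Field Ω] [Field B] [Algebra F Ω]
    [Algebra k Ω] [Algebra k B] (s : GalSection k F Ω B) (g : F) : Prop :=
  ∃ D : (FractionalIdeal (nonZeroDivisors (𝓞 k)) k)ˣ, ∀ N : ℕ, 0 < N → ∀ a : k, a ≠ 0 →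
    (∃ h : Ω, (∀ σ, s.s σ h = h) ∧ algebraMap F Ω g = algebraMap k Ω a * h ^ N) →
    ∃ I : (FractionalIdeal (nonZeroDivisors (𝓞 k)) k)ˣ,
      FractionalIdeal.spanSingleton (nonZeroDivisors (𝓞 k)) a =
        (D : FractionalIdeal (nonZeroDivisors (𝓞 k)) k) *
          (I : FractionalIdeal (nonZeroDivisors (𝓞 k)) k) ^ N

section

variable {k : Type} [Field k] [NumberField k]
    {F Ω B : Type} [Field F] [Field Ω] [Field B] [Algebra k F] [Algebra F Ω]
    [Algebra k Ω] [Algebra k B] [IsScalarTower k F Ω]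
    [IsAlgClosure F Ω] [IsAlgClosure k B] (s : GalSection k F Ω B)

lemma rn_iff (g : F) (hg : algebraMap F Ω g ∈ (toSAct s).fix) :
    RN s g ↔ RatNorm k (⟨algebraMap F Ω g, hg⟩ : (toSAct s).fix) := by
  have hΩ2 : Algebra.IsAlgebraic F Ω := IsAlgClosure.isAlgebraic
  unfold RN RatNorm
  refine exists_congr fun r => and_congr_right fun _ => forall_congr' fun N =>
    forall_congr' fun hN => forall_congr' fun a => forall_congr' fun ha => ?_
  refine imp_congr ?_ Iff.rfl
  constructor
  · rintro ⟨h, hh, e⟩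
    exact ⟨⟨h, (mem_fixS s).2 hh⟩, Subtype.ext e⟩
  · rintro ⟨h, e⟩
    exact ⟨h, (mem_fixS s).1 h.2, congrArg Subtype.val e⟩

lemma hi_iff (g : F) (hg : algebraMap F Ω g ∈ (toSAct s).fix) :
    HI s g ↔ HasIdeal k (⟨algebraMap F Ω g, hg⟩ : (toSAct s).fix) := by
  have hΩ2 : Algebra.IsAlgebraic F Ω := IsAlgClosure.isAlgebraic
  unfold HI HasIdeal
  refine exists_congr fun D => forall_congr' fun N =>
    forall_congr' fun hN => forall_congr' fun a => forall_congr' fun ha => ?_
  refine imp_congr ?_ (by simp)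
  constructor
  · rintro ⟨h, hh, e⟩
    exact ⟨⟨h, (mem_fixS s).2 hh⟩, Subtype.ext e⟩
  · rintro ⟨h, e⟩
    exact ⟨h, (mem_fixS s).1 h.2, congrArg Subtype.val e⟩

/-- classes with ideals have rational norms -/
theorem rn_of_hi {g : F} (hg0 : g ≠ 0) (h : HI s g) : RN s g := by
  have hΩ1 : IsAlgClosed Ω := IsAlgClosure.isAlgClosed F
  have hΩ2 : Algebra.IsAlgebraic F Ω := IsAlgClosure.isAlgebraic
  have hcF : CharZero F := charZero_of_injective_algebraMap (algebraMap k F).injective
  have hcΩ : CharZero Ω := charZero_of_injective_algebraMap (algebraMap F Ω).injective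
  set A := toSAct s with hA
  have hg : algebraMap F Ω g ∈ A.fix := (mem_fixS s).2 fun σ => (s.s σ).commutes g
  rw [rn_iff s g hg]
  rw [hi_iff s g hg] at h
  refine ratNorm ?_ ?_ ?_ h
  · intro x hx
    obtain ⟨w, hw⟩ := alg_range A.j (hx.algHom A.fix.val)
    have hw' : A.j w = (x : Ω) := hw
    obtain ⟨c, hc⟩ := A.fix_j (z := w) (by rw [hw']; exact x.2)
    refine ⟨c, Subtype.ext ?_⟩
    change algebraMap k Ω c = (x : Ω)
    rw [← hw', ← hc, A.j.commutes]
  · intro x hx N hN
    obtain ⟨a, ha, g, hg, h⟩ := A.kummer (f := (x : Ω)) x.2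
      (fun h => hx (Subtype.ext h)) hN
    exact ⟨a, ⟨g, hg⟩, ha, Subtype.ext h⟩
  · intro h0
    apply hg0
    apply (algebraMap F Ω).injective
    rw [map_zero]
    exact congrArg Subtype.val h0

/-- **The forward implication.** -/
theorem fwd (hF : ∃ t : F, Transcendental k t ∧
      Algebra.IsAlgebraic (IntermediateField.adjoin k {t}) F)
    {f : F} (hft : Transcendental k f)
    (hI : ∀ c : ℕ, c < 2 * Module.finrank ℚ k + 1 → RN s (f - (c : F))) :
    ∃! O : ValuationSubring F, s.ArisesFrom O := by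
  classical
  have hΩ1 : IsAlgClosed Ω := IsAlgClosure.isAlgClosed F
  have hΩ2 : Algebra.IsAlgebraic F Ω := IsAlgClosure.isAlgebraic
  have hcF : CharZero F := charZero_of_injective_algebraMap (algebraMap k F).injective
  have hcΩ : CharZero Ω := charZero_of_injective_algebraMap (algebraMap F Ω).injective
  have hk : Algebra.EssFiniteType ℚ k := inferInstance
  set A := toSAct s with hA
  have hloc : ∀ i : PlF k, s.GeometricOver i.Lv (AlgebraicClosure i.Lv) := fun i =>
    Pool.Agent.N890.KO.koenigsmann i.L i.v k F Ω B s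
  choose pl hpl using fun i : PlF k => toSAct_geo s (hloc i)
  have hfΩ : Transcendental k (algebraMap F Ω f) := by
    intro h
    apply hft
    exact (isAlgebraic_algHom_iff (IsScalarTower.toAlgHom k F Ω) (RingHom.injective _)).1 h
  have hfc : ∀ w : AlgebraicClosure k, algebraMap F Ω f ≠ A.j w := by
    intro w hw
    apply hfΩ
    rw [hw]
    exact (Algebra.IsAlgebraic.isAlgebraic (R := k) w).algHom A.j
  have hdim : ∀ x : Ω, (∀ w : AlgebraicClosure k, x ≠ A.j w) →
      ∀ t : Ω, IsAlgebraic (Algebra.adjoin k {x}) t := by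
    intro x hx t
    refine (alg_adjoin_of_dim hF x (fun h => ?_)).isAlgebraic _
    obtain ⟨w, hw⟩ := alg_range A.j h
    exact hx w hw.symm
  have hE : S_EmbFG := EmbFG.main FrobRes.main
  have hmem : ∀ g : F, algebraMap F Ω g ∈ A.fix := fun g =>
    (mem_fixS s).2 fun σ => (s.s σ).commutes g
  -- the finite extension
  obtain ⟨k', hfin, hk'⟩ : ∃ k' : IntermediateField k Ω, FiniteDimensional k k' ∧
      ∀ (σ : k →ₐ[ℚ] Ω) (a : k), σ a ∈ k' := by
    let b := Module.finBasis ℚ k
    let S : Set Ω := Set.range fun p : (k →ₐ[ℚ] Ω) × Fin (Module.finrank ℚ k) => p.1 (b p.2)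
    have hS : S.Finite := Set.finite_range _
    have hSf : Finite S := hS
    have hSi : ∀ x ∈ S, IsIntegral k x := by
      rintro _ ⟨p, rfl⟩
      exact ((Algebra.IsIntegral.isIntegral (R := ℚ) (b p.2)).map p.1).tower_top
    refine ⟨IntermediateField.adjoin k S, IntermediateField.finiteDimensional_adjoin hSi, ?_⟩
    intro σ a
    rw [← b.sum_repr a, map_sum]
    refine sum_mem fun i _ => ?_
    rw [Algebra.smul_def, map_mul]
    refine mul_mem ?_ (IntermediateField.subset_adjoin k S ⟨(σ, i), rfl⟩)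
    rw [eq_ratCast, map_ratCast]
    exact SubfieldClass.ratCast_mem _ _
  obtain ⟨W, hW⟩ := good A pl hpl hdim (ObsFG.main FrobRes.main hE) k' hk'
    ⟨algebraMap F Ω f, hmem f⟩ hfc (fun c hc => by
      have h1 := (rn_iff s _ (hmem (f - (c : F)))).1 (hI c hc)
      convert h1 using 1
      refine Subtype.ext ?_
      change algebraMap F Ω f - (((c : A.fix) : A.fix) : Ω) = algebraMap F Ω (f - (c : F))
      rw [map_sub, map_natCast]
      rfl)
  exact geometric_of_good hE (Desc.main hE) hk s W hW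

end

end Pool.Agent.Helper39.AD
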