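import Pool.Agent.Helper39.AD.Loc2
import Pool.Agent.Helper39.AD.Main2
import Pool.Agent.Helper39.AD.Bd

/-!
# Orders outside a finite set of places: the final assembly (not a result)
-/

set_option autoImplicit false
set_option linter.unusedSectionVars false

open Polynomial IsDedekindDomain NumberField nonZeroDivisors

namespace Pool.Agent.Helper39.AD

open Pool.Agent.TH954 Pool.Agent.Y791.BS Pool.Agent.Y791.BF Pool.Agent.Y791.BC
  Pool.Agent.Y791.BC.Leg Pool.Agent.Helper39.BS

/-- the orders of the class outside `T` are `d` -/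
def OrdOut {k F Ω B : Type} [Field k] [NumberField k] [Field F] [Field Ω] [Field B] [Algebra F Ω]
    [Algebra k Ω] [Algebra k B] (s : GalSection k F Ω B) (g : F)
    (T : Finset (HeightOneSpectrum (𝓞 k))) (d : HeightOneSpectrum (𝓞 k) → ℤ) : Prop :=
  ∀ N : ℕ, 0 < N → ∀ a : k, a ≠ 0 →
    (∃ h : Ω, (∀ σ, s.s σ h = h) ∧ algebraMap F Ω g = algebraMap k Ω a * h ^ N) →
    ∀ v ∉ T, ∃ m : ℤ, v.valuation k a = WithZero.exp (-(d v + N * m))

section abs

variable {k : Type} [Field k] [NumberField k] {F0 : Type} [Field F0] [Algebra k F0]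

/-- the norms of a quotient -/
lemma ratNorm_div (hK : ∀ x : F0, x ≠ 0 → ∀ N : ℕ, 0 < N → ∃ (a : k) (g : F0), a ≠ 0 ∧
      x = algebraMap k F0 a * g ^ N) {g g' : F0} (hg' : g' ≠ 0)
    (h : RatNorm k g) (h' : RatNorm k g') : RatNorm k (g / g') := by
  obtain ⟨r, hr0, hr⟩ := h
  obtain ⟨r', hr0', hr'⟩ := h'
  refine ⟨r / r', div_ne_zero hr0 hr0', fun N hN a ha => ?_⟩
  rintro ⟨z, hz⟩
  obtain ⟨b, u, hb, hu⟩ := hK g' hg' N hN
  obtain ⟨t', ht'⟩ := hr' N hN b hb ⟨u, hu⟩
  obtain ⟨t, ht⟩ := hr N hN (a * b) (mul_ne_zero ha hb) ⟨z * u, by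
    rw [div_eq_iff hg'] at hz
    rw [hz, hu, map_mul, mul_pow]
    ring⟩
  have hnb : Algebra.norm ℚ b ≠ 0 := by
    rw [Algebra.norm_ne_zero_iff]
    exact hb
  have ht0 : t' ≠ 0 := by
    rintro rfl
    rw [zero_pow hN.ne', mul_zero] at ht'
    exact hnb ht'
  refine ⟨t / t', ?_⟩
  rw [map_mul, ht'] at ht
  have h1 : Algebra.norm ℚ a = r * t ^ N / (r' * t' ^ N) := by
    rw [eq_div_iff (mul_ne_zero hr0' (pow_ne_zero _ ht0)), ht]
  rw [h1, div_pow]
  field_simp

end abs

section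

variable {k : Type} [Field k] [NumberField k]
    {F Ω B : Type} [Field F] [Field Ω] [Field B] [Algebra k F] [Algebra F Ω]
    [Algebra k Ω] [Algebra k B] [IsScalarTower k F Ω]
    [IsAlgClosure F Ω] [IsAlgClosure k B] (s : GalSection k F Ω B)

/-- the final step -/
theorem fin_step (hF : ∃ t : F, Transcendental k t ∧
      Algebra.IsAlgebraic (IntermediateField.adjoin k {t}) F)
    {f : F} (hft : Transcendental k f) (hmem : algebraMap F Ω f ∈ (toSAct s).fix)
    {G : Finset ℕ} (hG : 2 * Module.finrank ℚ k + 1 ≤ G.card) (c0 : ℕ)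
    (hI : ∀ c ∈ G, RatNorm k (((⟨algebraMap F Ω f, hmem⟩ : (toSAct s).fix) - (c : (toSAct s).fix)) /
      ((⟨algebraMap F Ω f, hmem⟩ : (toSAct s).fix) - (c0 : (toSAct s).fix)))) :
    ∃! O : ValuationSubring F, s.ArisesFrom O := by
  classical
  have hΩ1 : IsAlgClosed Ω := IsAlgClosure.isAlgClosed F
  have hΩ2 : Algebra.IsAlgebraic F Ω := IsAlgClosure.isAlgebraic
  have hcF : CharZero F := charZero_of_injective_algebraMap (algebraMap k F).injective
  have hcΩ : CharZero Ω := charZero_of_injective_algebraMap (algebraMap F Ω).injective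
  have hk : Algebra.EssFiniteType ℚ k := inferInstance
  set A := toSAct s with hA
  have hloc : ∀ i : PlF k, s.GeometricOver i.Lv (AlgebraicClosure i.Lv) := fun i =>
    Pool.Agent.N890.KO.koenigsmann i.L i.v k F Ω B s
  choose pl hpl using fun i : PlF k => toSAct_geo s (hloc i)
  have hfΩ : Transcendental k (algebraMap F Ω f) := by
    intro h
    apply hft
    exact (isAlgebraic_algHom_iff (IsScalarTower.toAlgHom k F Ω) (RingHom.injective _)).1 h
  have hfc : ∀ w : AlgebraicClosure k, algebraMap F Ω f ≠ A.j w := by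
    intro w hw
    apply hfΩ
    rw [hw]
    exact (Algebra.IsAlgebraic.isAlgebraic (R := k) w).algHom A.j
  have hdim : ∀ x : Ω, (∀ w : AlgebraicClosure k, x ≠ A.j w) →
      ∀ t : Ω, IsAlgebraic (Algebra.adjoin k {x}) t := by
    intro x hx t
    refine (alg_adjoin_of_dim hF x (fun h => ?_)).isAlgebraic _
    obtain ⟨w, hw⟩ := alg_range A.j h
    exact hx w hw.symm
  have hE : S_EmbFG := EmbFG.main FrobRes.main
  obtain ⟨k', hfin, hk'⟩ : ∃ k' : IntermediateField k Ω, FiniteDimensional k k' ∧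
      ∀ (σ : k →ₐ[ℚ] Ω) (a : k), σ a ∈ k' := by
    let b := Module.finBasis ℚ k
    let S : Set Ω := Set.range fun p : (k →ₐ[ℚ] Ω) × Fin (Module.finrank ℚ k) => p.1 (b p.2)
    have hS : S.Finite := Set.finite_range _
    have hSf : Finite S := hS
    have hSi : ∀ x ∈ S, IsIntegral k x := by
      rintro _ ⟨p, rfl⟩
      exact ((Algebra.IsIntegral.isIntegral (R := ℚ) (b p.2)).map p.1).tower_top
    refine ⟨IntermediateField.adjoin k S, IntermediateField.finiteDimensional_adjoin hSi, ?_⟩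
    intro σ a
    rw [← b.sum_repr a, map_sum]
    refine sum_mem fun i _ => ?_
    rw [Algebra.smul_def, map_mul]
    refine mul_mem ?_ (IntermediateField.subset_adjoin k S ⟨(σ, i), rfl⟩)
    rw [eq_ratCast, map_ratCast]
    exact SubfieldClass.ratCast_mem _ _
  obtain ⟨W, hW⟩ := good2 A pl hpl hdim (ObsFG.main FrobRes.main hE) k' hk'
    ⟨algebraMap F Ω f, hmem⟩ hfc hG c0 hI
  exact geometric_of_good hE (Desc.main hE) hk s W hW

/-- **The norms of the classes of `1 - c f`.** -/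
theorem fwd2 (hF : ∃ t : F, Transcendental k t ∧
      Algebra.IsAlgebraic (IntermediateField.adjoin k {t}) F)
    {f : F} (hft : Transcendental k f)
    (hI : ∀ c : ℕ, c < 2 * Module.finrank ℚ k + 1 → RN s (1 - (c : F) * f)) :
    ∃! O : ValuationSubring F, s.ArisesFrom O := by
  classical
  have hΩ2 : Algebra.IsAlgebraic F Ω := IsAlgClosure.isAlgebraic
  have hf0 : f ≠ 0 := by
    rintro rfl
    exact hft isAlgebraic_zero
  have hfi : Transcendental k f⁻¹ := fun h => hft (by simpa using h.inv)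
  have hmem : ∀ g : F, algebraMap F Ω g ∈ (toSAct s).fix := fun g =>
    (mem_fixS s).2 fun σ => (s.s σ).commutes g
  refine fin_step s hF hfi (hmem _) (G := Finset.range (2 * Module.finrank ℚ k + 1))
    (by rw [Finset.card_range]) 0 (fun c hc => ?_)
  have h1 := (rn_iff s _ (hmem (1 - (c : F) * f))).1 (hI c (Finset.mem_range.1 hc))
  convert h1 using 1
  refine Subtype.ext ?_
  change (algebraMap F Ω f⁻¹ - (((c : (toSAct s).fix) : (toSAct s).fix) : Ω)) /
    (algebraMap F Ω f⁻¹ - (((0 : ℕ) : (toSAct s).fix) : Ω)) = algebraMap F Ω (1 - (c : F) * f)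
  have h2 : algebraMap F Ω f ≠ 0 := (_root_.map_ne_zero _).2 hf0
  have h3 : ∀ c : ℕ, (((c : (toSAct s).fix) : (toSAct s).fix) : Ω) = (c : Ω) := fun c => rfl
  rw [h3, h3, map_inv₀, map_sub, map_one, map_mul, map_natCast, Nat.cast_zero, sub_zero]
  field_simp

/-- **The orders outside a finite set.** -/
theorem of_orders (hF : ∃ t : F, Transcendental k t ∧
      Algebra.IsAlgebraic (IntermediateField.adjoin k {t}) F)
    {f : F} (hft : Transcendental k f) {M : ℕ} (T : Finset (HeightOneSpectrum (𝓞 k)))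
    (hM : T.card + (2 * Module.finrank ℚ k + 1) ≤ M) {d : HeightOneSpectrum (𝓞 k) → ℤ} {b : ℤ}
    (hb : ∀ v ∉ T, |d v| ≤ b)
    (hd : OrdOut s (∏ c ∈ Finset.range M, (f - (c : F))) T d) :
    ∃! O : ValuationSubring F, s.ArisesFrom O := by
  classical
  have hΩ1 : IsAlgClosed Ω := IsAlgClosure.isAlgClosed F
  have hΩ2 : Algebra.IsAlgebraic F Ω := IsAlgClosure.isAlgebraic
  have hcF : CharZero F := charZero_of_injective_algebraMap (algebraMap k F).injective
  have hcΩ : CharZero Ω := charZero_of_injective_algebraMap (algebraMap F Ω).injective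
  set A := toSAct s with hA
  have hloc : ∀ i : PlF k, s.GeometricOver i.Lv (AlgebraicClosure i.Lv) := fun i =>
    Pool.Agent.N890.KO.koenigsmann i.L i.v k F Ω B s
  choose pl hpl using fun i : PlF k => toSAct_geo s (hloc i)
  have hchi : ∀ i : PlF k, CharZero i.Lv := fun i => charZero_compl i.v
  choose q hqW hqv using fun i : PlF k => exists_fixPlc A (hpl i)
  have hmem : ∀ g : F, algebraMap F Ω g ∈ A.fix := fun g =>
    (mem_fixS s).2 fun σ => (s.s σ).commutes g
  have hint : ∀ x : A.fix, IsAlgebraic k x → ∃ c, algebraMap k A.fix c = x := by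
    intro x hx
    obtain ⟨w, hw⟩ := alg_range A.j (hx.algHom A.fix.val)
    have hw' : A.j w = (x : Ω) := hw
    obtain ⟨c, hc⟩ := A.fix_j (z := w) (by rw [hw']; exact x.2)
    refine ⟨c, Subtype.ext ?_⟩
    change algebraMap k Ω c = (x : Ω)
    rw [← hw', ← hc, A.j.commutes]
  have hK : ∀ x : A.fix, x ≠ 0 → ∀ N : ℕ, 0 < N → ∃ (a : k) (g : A.fix), a ≠ 0 ∧
      x = algebraMap k A.fix a * g ^ N := by
    intro x hx N hN
    obtain ⟨a, ha, g, hg, h⟩ := A.kummer (f := (x : Ω)) x.2
      (fun h => hx (Subtype.ext h)) hN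
    exact ⟨a, ⟨g, hg⟩, ha, Subtype.ext h⟩
  set y : A.fix := ⟨algebraMap F Ω f, hmem f⟩ with hydef
  have hyc : ∀ c : ℕ, y - (c : A.fix) = ⟨algebraMap F Ω (f - (c : F)), hmem _⟩ := by
    intro c
    refine Subtype.ext ?_
    change algebraMap F Ω f - (((c : A.fix) : A.fix) : Ω) = algebraMap F Ω (f - (c : F))
    rw [map_sub, map_natCast]
    rfl
  have hyp : ∏ c ∈ Finset.range M, (y - (c : A.fix)) =
      ⟨algebraMap F Ω (∏ c ∈ Finset.range M, (f - (c : F))), hmem _⟩ := by
    refine Subtype.ext ?_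
    change A.fix.val (∏ c ∈ Finset.range M, (y - (c : A.fix))) =
      algebraMap F Ω (∏ c ∈ Finset.range M, (f - (c : F)))
    rw [map_prod, map_prod]
    exact Finset.prod_congr rfl fun c _ => congrArg Subtype.val (hyc c)
  have hy0 : ∀ c : ℕ, y - (c : A.fix) ≠ 0 := by
    intro c h
    rw [hyc] at h
    have h1 : algebraMap F Ω (f - (c : F)) = 0 := congrArg Subtype.val h
    have h2 : f - (c : F) = 0 := (_root_.map_eq_zero _).1 h1
    apply hft
    rw [sub_eq_zero.1 h2]
    exact isAlgebraic_natCast c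
  obtain ⟨G, hG, c0, hI⟩ := ratNorm_of_orders q hchi T hM hy0 hint hK hb (d := d) (by
    intro v hv N hN a ha
    rintro ⟨h, hh⟩
    rw [hyp] at hh
    obtain ⟨m, hm⟩ := hd N hN a ha ⟨h, (mem_fixS s).1 h.2, congrArg Subtype.val hh⟩ v hv
    rw [val_eq_exp v ha] at hm
    have h1 : -cnt v a = -(d v + (N : ℤ) * m) := WithZero.exp_injective hm
    exact ⟨m, by linarith⟩)
  exact fin_step s hF hft (hmem f) hG c0 hI

/-- the norms at a rational point -/
theorem conv2 {O : ValuationSubring F} (hO : s.ArisesFrom O) :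
    ∃ f : F, Transcendental k f ∧ ∀ c : ℕ, RN s (1 - (c : F) * f) := by
  classical
  have hΩ1 : IsAlgClosed Ω := IsAlgClosure.isAlgClosed F
  have hΩ2 : Algebra.IsAlgebraic F Ω := IsAlgClosure.isAlgebraic
  have hcF : CharZero F := charZero_of_injective_algebraMap (algebraMap k F).injective
  have hcΩ : CharZero Ω := charZero_of_injective_algebraMap (algebraMap F Ω).injective
  obtain ⟨f, hft, hf⟩ := conv s hO
  have hf0 : f ≠ 0 := by
    rintro rfl
    exact hft isAlgebraic_zero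
  have hfc0 : ∀ c : ℕ, f - (c : F) ≠ 0 := by
    intro c h
    apply hft
    rw [sub_eq_zero.1 h]
    exact isAlgebraic_natCast c
  have hmem : ∀ g : F, algebraMap F Ω g ∈ (toSAct s).fix := fun g =>
    (mem_fixS s).2 fun σ => (s.s σ).commutes g
  have hK : ∀ x : (toSAct s).fix, x ≠ 0 → ∀ N : ℕ, 0 < N → ∃ (a : k) (g : (toSAct s).fix), a ≠ 0 ∧
      x = algebraMap k (toSAct s).fix a * g ^ N := by
    intro x hx N hN
    obtain ⟨a, ha, g, hg, h⟩ := (toSAct s).kummer (f := (x : Ω)) x.2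
      (fun h => hx (Subtype.ext h)) hN
    exact ⟨a, ⟨g, hg⟩, ha, Subtype.ext h⟩
  refine ⟨f⁻¹, fun h => hft (by simpa using h.inv), fun c => ?_⟩
  have h1 := (rn_iff s _ (hmem _)).1 (rn_of_hi s (hfc0 c) (hf c))
  have h2 := (rn_iff s _ (hmem _)).1 (rn_of_hi s (hfc0 0) (hf 0))
  have h3 := ratNorm_div hK (by
    intro h
    apply hfc0 0
    exact (_root_.map_eq_zero (algebraMap F Ω)).1 (congrArg Subtype.val h)) h1 h2
  rw [rn_iff s _ (hmem _)]
  convert h3 using 1
  refine Subtype.ext ?_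
  change algebraMap F Ω (1 - (c : F) * f⁻¹) =
    algebraMap F Ω (f - (c : F)) / algebraMap F Ω (f - ((0 : ℕ) : F))
  rw [← map_div₀]
  congr 1
  rw [Nat.cast_zero, sub_zero]
  field_simp

end

end Pool.Agent.Helper39.AD
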