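import Pool.Agent.Helper39.AD.Core
import Mathlib.RingTheory.DedekindDomain.Factorization

/-!
# Fractional ideals and orders (not a result)
-/

set_option autoImplicit false
set_option linter.unusedSectionVars false

open Polynomial IsDedekindDomain NumberField nonZeroDivisors FractionalIdeal

namespace Pool.Agent.Helper39.AD

variable {k : Type} [Field k] [NumberField k]

/-- the order at `v` -/
noncomputable def cnt (v : HeightOneSpectrum (𝓞 k)) (a : k) : ℤ :=
  count k v (spanSingleton (𝓞 k)⁰ a)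

lemma cnt_mul (v : HeightOneSpectrum (𝓞 k)) {a b : k} (ha : a ≠ 0) (hb : b ≠ 0) :
    cnt v (a * b) = cnt v a + cnt v b := by
  unfold cnt
  rw [← spanSingleton_mul_spanSingleton, count_mul k v (spanSingleton_ne_zero_iff.2 ha)
    (spanSingleton_ne_zero_iff.2 hb)]

lemma cnt_pow (v : HeightOneSpectrum (𝓞 k)) (a : k) (n : ℕ) :
    cnt v (a ^ n) = n * cnt v a := by
  unfold cnt
  rw [← spanSingleton_pow, count_pow]

lemma cnt_prod (v : HeightOneSpectrum (𝓞 k)) {ι : Type} (s : Finset ι) {a : ι → k}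
    (ha : ∀ i ∈ s, a i ≠ 0) : cnt v (∏ i ∈ s, a i) = ∑ i ∈ s, cnt v (a i) := by
  classical
  induction s using Finset.induction_on with
  | empty =>
    rw [Finset.prod_empty, Finset.sum_empty]
    unfold cnt
    rw [spanSingleton_one, count_one]
  | insert i s hi ih =>
    rw [Finset.prod_insert hi, Finset.sum_insert hi,
      cnt_mul v (ha i (Finset.mem_insert_self _ _))
        (Finset.prod_ne_zero_iff.2 fun j hj => ha j (Finset.mem_insert_of_mem hj)),
      ih fun j hj => ha j (Finset.mem_insert_of_mem hj)]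

lemma cnt_finite {a : k} : ∀ᶠ v : HeightOneSpectrum (𝓞 k) in Filter.cofinite, cnt v a = 0 :=
  finite_factors _

/-- the order and the valuation -/
lemma log_val (v : HeightOneSpectrum (𝓞 k)) {a : k} (ha : a ≠ 0) :
    WithZero.log (v.valuation k a) = - cnt v a := by
  classical
  obtain ⟨r, s, rfl⟩ := IsLocalization.exists_mk'_eq (𝓞 k)⁰ a
  have hs : (s : 𝓞 k) ≠ 0 := nonZeroDivisors.ne_zero s.2
  have hr : r ≠ 0 := by
    rintro rfl
    exact ha (by simp)
  have h1 : cnt v (IsLocalization.mk' k r s) =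
      ((Associates.mk v.asIdeal).count (Associates.mk (Ideal.span {r})).factors -
      (Associates.mk v.asIdeal).count (Associates.mk (Ideal.span {(s : 𝓞 k)})).factors : ℤ) := by
    unfold cnt
    refine count_well_defined k v (spanSingleton_ne_zero_iff.2 ha) ?_
    rw [coeIdeal_span_singleton, spanSingleton_mul_spanSingleton, IsFractionRing.mk'_eq_div]
    congr 1
    rw [div_eq_inv_mul]
  rw [HeightOneSpectrum.valuation_of_mk', h1, v.intValuation_if_neg hr, v.intValuation_if_neg hs,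
    WithZero.log_div WithZero.exp_ne_zero WithZero.exp_ne_zero, WithZero.log_exp, WithZero.log_exp]
  ring

/-- an ideal with given orders -/
theorem exists_ideal (e : HeightOneSpectrum (𝓞 k) → ℤ)
    (he : ∀ᶠ v : HeightOneSpectrum (𝓞 k) in Filter.cofinite, e v = 0) :
    ∃ D : (FractionalIdeal (𝓞 k)⁰ k)ˣ, ∀ N : ℕ, 0 < N → ∀ a : k, a ≠ 0 →
      (∀ v, (N : ℤ) ∣ cnt v a - e v) → ∃ I : (FractionalIdeal (𝓞 k)⁰ k)ˣ,
        spanSingleton (𝓞 k)⁰ a = ((D * I ^ N : (FractionalIdeal (𝓞 k)⁰ k)ˣ) :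
          FractionalIdeal (𝓞 k)⁰ k) := by
  classical
  have hne : ∀ f : HeightOneSpectrum (𝓞 k) → ℤ,
      (∏ᶠ v : HeightOneSpectrum (𝓞 k), (v.asIdeal : FractionalIdeal (𝓞 k)⁰ k) ^ f v) ≠ 0 := by
    intro f
    exact finprod_induction (fun x : FractionalIdeal (𝓞 k)⁰ k => x ≠ 0) one_ne_zero
      (fun _ _ => mul_ne_zero) (fun v => zpow_ne_zero _ (coeIdeal_ne_zero.2 v.ne_bot))
  refine ⟨Units.mk0 _ (hne e), ?_⟩
  intro N hN a ha h
  have haI : spanSingleton (𝓞 k)⁰ a ≠ 0 := spanSingleton_ne_zero_iff.2 ha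
  set J : FractionalIdeal (𝓞 k)⁰ k := spanSingleton (𝓞 k)⁰ a *
    (∏ᶠ v : HeightOneSpectrum (𝓞 k), (v.asIdeal : FractionalIdeal (𝓞 k)⁰ k) ^ e v)⁻¹ with hJ
  have hJ0 : J ≠ 0 := mul_ne_zero haI (inv_ne_zero (hne e))
  have hc : ∀ v, count k v J = cnt v a - e v := by
    intro v
    rw [hJ, count_mul k v haI (inv_ne_zero (hne e)), count_inv, count_finprod k v e he]
    rfl
  choose m hm using h
  have hJm : ∀ v, count k v J = m v * N := fun v => by rw [hc, hm, mul_comm]
  have hmf : ∀ᶠ v : HeightOneSpectrum (𝓞 k) in Filter.cofinite, m v = 0 := by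
    filter_upwards [finite_factors J] with v hv
    rw [hJm] at hv
    exact (mul_eq_zero.1 hv).resolve_right (by exact_mod_cast hN.ne')
  refine ⟨Units.mk0 _ (hne m), ?_⟩
  rw [Units.val_mul, Units.val_pow_eq_pow_val, Units.val_mk0, Units.val_mk0]
  have h1 : (∏ᶠ v : HeightOneSpectrum (𝓞 k),
      (v.asIdeal : FractionalIdeal (𝓞 k)⁰ k) ^ m v) ^ N = J := by
    have h2 : Function.HasFiniteMulSupport (fun v : HeightOneSpectrum (𝓞 k) =>
        (v.asIdeal : FractionalIdeal (𝓞 k)⁰ k) ^ m v) := by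
      refine Set.Finite.subset (Filter.eventually_cofinite.1 hmf) ?_
      intro v hv h0
      rw [Function.mem_mulSupport] at hv
      exact hv (by rw [h0, zpow_zero])
    have h3 := finprod_pow h2 N
    have h4 := finprod_heightOneSpectrum_factorization' k hJ0
    refine Eq.trans h3 (Eq.trans (finprod_congr fun v => ?_) h4)
    rw [hJm, zpow_mul, zpow_natCast]
  rw [h1, hJ, mul_comm, mul_assoc, inv_mul_cancel₀ (hne e), mul_one]

/-- the orders of an ideal -/
lemma orders_of (D I : (FractionalIdeal (𝓞 k)⁰ k)ˣ) {N : ℕ} {a : k}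
    (h : spanSingleton (𝓞 k)⁰ a = ((D * I ^ N : (FractionalIdeal (𝓞 k)⁰ k)ˣ) :
          FractionalIdeal (𝓞 k)⁰ k)) (v : HeightOneSpectrum (𝓞 k)) :
    (N : ℤ) ∣ cnt v a - count k v (D : FractionalIdeal (𝓞 k)⁰ k) := by
  unfold cnt
  rw [h, Units.val_mul, Units.val_pow_eq_pow_val, count_mul k v D.ne_zero (pow_ne_zero _ I.ne_zero),
    count_pow, add_sub_cancel_left]
  exact Dvd.intro _ rfl

end Pool.Agent.Helper39.AD
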