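import Mathlib

/-!
# Monic polynomials with values proportional to given rational numbers (not a result)
-/

set_option autoImplicit false

open Polynomial

namespace Pool.Agent.Helper39.AD

/-- monic polynomials of degree at most `n` with values at `0, ..., 2 n` proportional to given rational
numbers, except for the zeros, divide one polynomial up to a factor -/
theorem interp (n : ℕ) (r : ℕ → ℚ) (hr : ∀ c, r c ≠ 0) :
    ∃ Ψ : ℚ[X], Ψ ≠ 0 ∧ ∀ (L : Type) [Field L] [CharZero L] (χ : L[X]), χ.Monic →
      χ.natDegree ≤ n →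
      (∀ c < 2 * n + 1, ∀ c' < 2 * n + 1, χ.eval (c : L) ≠ 0 → χ.eval (c' : L) ≠ 0 →
        χ.eval (c : L) * (r c' : L) = χ.eval (c' : L) * (r c : L)) →
      ∀ u : L, χ.eval u = 0 → (Ψ.map (algebraMap ℚ L)).eval u = 0 := by
  classical
  let P : Finset ℕ → ℚ[X] := fun S => Lagrange.interpolate S (fun c : ℕ => (c : ℚ)) r
  have hinj : ∀ S : Finset ℕ, Set.InjOn (fun c : ℕ => (c : ℚ)) S :=
    fun S => Nat.cast_injective.injOn
  have hev : ∀ S : Finset ℕ, ∀ c ∈ S, (P S).eval (c : ℚ) = r c := fun S c hc =>
    Lagrange.eval_interpolate_at_node r (hinj S) hc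
  let T : Finset (Finset ℕ) := (Finset.range (2 * n + 1)).powersetCard (n + 1)
  have hne : ∀ S ∈ T, P S ≠ 0 := by
    intro S hS h0
    have hcard := (Finset.mem_powersetCard.1 hS).2
    obtain ⟨c, hc⟩ : S.Nonempty := by
      rw [← Finset.card_pos, hcard]
      omega
    have := hev S c hc
    rw [h0, eval_zero] at this
    exact hr c this.symm
  refine ⟨∏ S ∈ T, P S, Finset.prod_ne_zero_iff.2 hne, ?_⟩
  intro L _ _ χ hχ hdeg hrel u hu
  set J : Finset ℕ := (Finset.range (2 * n + 1)).filter fun c => χ.eval (c : L) ≠ 0 with hJ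
  set Z : Finset ℕ := (Finset.range (2 * n + 1)).filter fun c => χ.eval (c : L) = 0 with hZ
  have hZc : Z.card ≤ n := by
    have h1 : Z.image (fun c : ℕ => (c : L)) ⊆ χ.roots.toFinset := by
      intro x hx
      obtain ⟨c, hc, rfl⟩ := Finset.mem_image.1 hx
      rw [Multiset.mem_toFinset, mem_roots hχ.ne_zero]
      exact (Finset.mem_filter.1 hc).2
    have h2 := Finset.card_le_card h1
    rw [Finset.card_image_of_injective _ Nat.cast_injective] at h2
    exact h2.trans ((Multiset.toFinset_card_le _).trans ((card_roots' χ).trans hdeg))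
  have hJc : n + 1 ≤ J.card := by
    have h1 : J.card + Z.card = 2 * n + 1 := by
      have := Finset.card_filter_add_card_filter_not (s := Finset.range (2 * n + 1))
        (fun c : ℕ => χ.eval (c : L) ≠ 0)
      rw [Finset.card_range] at this
      rw [hJ, hZ]
      convert this using 3
      ext c
      simp
    omega
  obtain ⟨S, hSJ, hS⟩ := Finset.exists_subset_card_eq hJc
  have hST : S ∈ T := Finset.mem_powersetCard.2
    ⟨hSJ.trans (Finset.filter_subset _ _), hS⟩
  have hSne : ∀ c ∈ S, c < 2 * n + 1 ∧ χ.eval (c : L) ≠ 0 := by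
    intro c hc
    have := Finset.mem_filter.1 (hSJ hc)
    exact ⟨Finset.mem_range.1 this.1, this.2⟩
  obtain ⟨c0, hc0⟩ : S.Nonempty := by
    rw [← Finset.card_pos, hS]
    omega
  have hrL : ∀ c, (r c : L) ≠ 0 := fun c => by
    exact_mod_cast hr c
  set lam : L := χ.eval (c0 : L) / (r c0 : L) with hlam
  have hlam0 : lam ≠ 0 := div_ne_zero (hSne c0 hc0).2 (hrL c0)
  have heq : χ = C lam * (P S).map (algebraMap ℚ L) := by
    refine Polynomial.eq_of_degrees_lt_of_eval_index_eq (s := S) (v := fun c : ℕ => (c : L))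
      Nat.cast_injective.injOn ?_ ?_ ?_
    · rw [hS]
      refine lt_of_le_of_lt degree_le_natDegree ?_
      exact_mod_cast Nat.lt_succ_of_le hdeg
    · rw [degree_C_mul hlam0, degree_map]
      exact Lagrange.degree_interpolate_lt r (hinj S)
    · intro c hc
      have h1 : ((P S).map (algebraMap ℚ L)).eval (c : L) = (r c : L) := by
        have h2 : ((c : ℕ) : L) = algebraMap ℚ L (c : ℚ) := by simp
        rw [h2, eval_map, eval₂_at_apply, hev S c hc]
        rfl
      change χ.eval (c : L) = (C lam * (P S).map (algebraMap ℚ L)).eval (c : L)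
      rw [eval_mul, eval_C, h1, hlam]
      have h3 := hrel c (hSne c hc).1 c0 (hSne c0 hc0).1 (hSne c hc).2 (hSne c0 hc0).2
      field_simp [hrL c0]
      linear_combination h3
  have h4 : ((P S).map (algebraMap ℚ L)).eval u = 0 := by
    have h5 := hu
    rw [heq, eval_mul, eval_C] at h5
    exact (mul_eq_zero.1 h5).resolve_left hlam0
  rw [Polynomial.map_prod, eval_prod]
  exact Finset.prod_eq_zero hST h4

end Pool.Agent.Helper39.AD
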