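import Pool.Agent.Helper39.AD.Fr

/-!
# One class decides: from the class of the product to the classes of the factors (not a result)
-/

set_option autoImplicit false
set_option linter.unusedSectionVars false

open Polynomial IsDedekindDomain NumberField nonZeroDivisors FractionalIdeal

namespace Pool.Agent.Helper39.AD

open Pool.Agent.TH954 Pool.Agent.Y791.BF

variable {k : Type} [Field k] [NumberField k] {F0 : Type} [Field F0] [Algebra k F0]

section loc

variable (v : HeightOneSpectrum (𝓞 k)) {C : Type} [Field C] [Algebra k C]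
  (w : Valuation C (WithZero (Multiplicative ℤ)))
  (hw : ∀ a : k, w (algebraMap k C a) = v.valuation k a) (q : Plc k F0 C)

include hw in
/-- classes of values -/
lemma class_val {z : F0} {x : C} (hz : q.val z x) (hx : x ≠ 0) {N : ℕ} (hN : 0 < N) {a : k}
    (ha : a ≠ 0) {h : F0} (e : z = algebraMap k F0 a * h ^ N) :
    (N : ℤ) ∣ WithZero.log (w x) + cnt v a := by
  have haF : algebraMap k F0 a ≠ 0 := (_root_.map_ne_zero _).2 ha
  have haC : algebraMap k C a ≠ 0 := (_root_.map_ne_zero _).2 ha
  have h1 : q.val (h ^ N) (x * (algebraMap k C a)⁻¹) := by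
    have h2 := hz.mul ((Plc.val_alg (pl := q) a).inv haC)
    have h3 : z * (algebraMap k F0 a)⁻¹ = h ^ N := by
      rw [e]
      field_simp
    rwa [h3] at h2
  obtain ⟨η, hη⟩ := Plc.val_of_mem (Plc.mem_of_pow_mem hN h1.mem)
  have h4 : η ^ N = x * (algebraMap k C a)⁻¹ := (hη.pow N).unique h1
  have h5 : x = η ^ N * algebraMap k C a := by
    rw [h4]
    field_simp
  have hη0 : η ≠ 0 := by
    rintro rfl
    rw [zero_pow hN.ne', zero_mul] at h5
    exact hx h5
  have hwη : w η ≠ 0 := (Valuation.ne_zero_iff _).2 hη0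
  refine ⟨WithZero.log (w η), ?_⟩
  rw [h5, map_mul, map_pow, WithZero.log_mul (pow_ne_zero _ hwη)
    ((Valuation.ne_zero_iff _).2 haC), WithZero.log_pow, hw, log_val v ha]
  simp

include hw q in
/-- the orders of the classes of the factors at one place -/
theorem exists_order {M : ℕ} (hM : 0 < M) {y : F0} (hy : ∀ c : ℕ, y - (c : F0) ≠ 0)
    (hK : ∀ x : F0, x ≠ 0 → ∀ N : ℕ, 0 < N → ∃ (a : k) (g : F0), a ≠ 0 ∧
      x = algebraMap k F0 a * g ^ N)
    {d : ℤ} (hd : ∀ N : ℕ, 0 < N → ∀ a : k, a ≠ 0 →
      (∃ h : F0, ∏ c ∈ Finset.range M, (y - (c : F0)) = algebraMap k F0 a * h ^ N) →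
      (N : ℤ) ∣ cnt v a - d) {c : ℕ} (hc : c < M) :
    ∃ e : ℤ, (∀ N : ℕ, 0 < N → ∀ a : k, a ≠ 0 →
      (∃ h : F0, y - (c : F0) = algebraMap k F0 a * h ^ N) → (N : ℤ) ∣ cnt v a - e) ∧
      (d = 0 → (∀ j : ℕ, j < M → 0 < j → cnt v (j : k) = 0) → e = 0) := by
  classical
  have hCh : CharZero C := by
    have : CharZero k := inferInstance
    exact charZero_of_injective_algebraMap (algebraMap k C).injective
  have hwn : ∀ n : ℕ, w (n : C) ≤ 1 := by
    intro n
    induction n with
    | zero => rw [Nat.cast_zero, map_zero]; exact zero_le_one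
    | succ n ih =>
      rw [Nat.cast_succ]
      exact Valuation.map_add_le _ ih (by rw [map_one])
  have hdiff : ∀ c0 c1 : ℕ, c0 < M → c1 < M → c0 ≠ c1 →
      (∀ j : ℕ, j < M → 0 < j → cnt v (j : k) = 0) →
      WithZero.log (w ((c0 : C) - (c1 : C))) = 0 := by
    have key : ∀ c0 c1 : ℕ, c0 < M → c1 < c0 →
        (∀ j : ℕ, j < M → 0 < j → cnt v (j : k) = 0) →
        WithZero.log (w ((c0 : C) - (c1 : C))) = 0 := by
      intro c0 c1 h0 h1 hj
      have h2 := hj (c0 - c1) (by omega) (by omega)
      have h3 : ((c0 - c1 : ℕ) : k) ≠ 0 := Nat.cast_ne_zero.2 (by omega)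
      have h4 := log_val v h3
      rw [← hw, map_natCast, h2, neg_zero, Nat.cast_sub h1.le] at h4
      exact h4
    intro c0 c1 h0 h1 hne hj
    rcases lt_or_gt_of_ne hne with h | h
    · rw [Valuation.map_sub_swap]
      exact key c1 c0 h1 h hj
    · exact key c0 c1 h0 h hj
  by_cases hyW : y ∈ q.W
  · obtain ⟨u, hu⟩ := Plc.val_of_mem hyW
    have hval : ∀ c' : ℕ, q.val (y - (c' : F0)) (u - (c' : C)) := fun c' =>
      hu.sub (Plc.val_natCast c')
    by_cases huc : u = (c : C)
    · -- the value is `c`
      refine ⟨d + ∑ c' ∈ (Finset.range M).erase c, WithZero.log (w (u - (c' : C))), ?_, ?_⟩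
      · rintro N hN a ha ⟨h, hh⟩
        choose b g hb hg using fun c' : ℕ => hK _ (hy c') N hN
        have h1 := hd N hN (a * ∏ c' ∈ (Finset.range M).erase c, b c')
          (mul_ne_zero ha (Finset.prod_ne_zero_iff.2 fun c' _ => hb c'))
          ⟨h * ∏ c' ∈ (Finset.range M).erase c, g c', by
            rw [← Finset.mul_prod_erase _ _ (Finset.mem_range.2 hc), hh,
              Finset.prod_congr rfl (fun c' _ => hg c'), Finset.prod_mul_distrib, map_mul,
              map_prod, mul_pow, ← Finset.prod_pow]
            ring⟩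
        rw [cnt_mul v ha (Finset.prod_ne_zero_iff.2 fun c' _ => hb c'),
          cnt_prod v _ (fun c' _ => hb c')] at h1
        have h2 : (N : ℤ) ∣ ∑ c' ∈ (Finset.range M).erase c,
            (WithZero.log (w (u - (c' : C))) + cnt v (b c')) := by
          refine Finset.dvd_sum fun c' hc' => ?_
          refine class_val v w hw q (hval c') ?_ hN (hb c') (hg c')
          rw [huc, sub_ne_zero]
          exact_mod_cast (Finset.ne_of_mem_erase hc').symm
        rw [Finset.sum_add_distrib] at h2
        have h3 := dvd_sub h1 h2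
        refine Eq.subst (motive := fun t : ℤ => _ ∣ t) ?_ h3
        ring
      · intro hd0 hj
        rw [hd0, zero_add]
        refine Finset.sum_eq_zero fun c' hc' => ?_
        rw [huc]
        exact hdiff c c' hc (Finset.mem_range.1 (Finset.mem_of_mem_erase hc'))
          (Finset.ne_of_mem_erase hc').symm hj
    · refine ⟨- WithZero.log (w (u - (c : C))), ?_, ?_⟩
      · rintro N hN a ha ⟨h, hh⟩
        have h1 := class_val v w hw q (hval c) (sub_ne_zero.2 huc) hN ha hh
        refine Eq.subst (motive := fun t : ℤ => _ ∣ t) ?_ h1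
        ring
      · intro hd0 hj
        rw [neg_eq_zero]
        by_cases hex : ∃ c0 : ℕ, c0 < M ∧ u = (c0 : C)
        · obtain ⟨c0, h0, h1⟩ := hex
          rw [h1]
          refine hdiff c0 c h0 hc ?_ hj
          rintro rfl
          exact huc h1
        · push Not at hex
          have hS : ∑ c' ∈ Finset.range M, WithZero.log (w (u - (c' : C))) = 0 := by
            have h1 : ∀ N : ℕ, 0 < N →
                (N : ℤ) ∣ ∑ c' ∈ Finset.range M, WithZero.log (w (u - (c' : C))) := by
              intro N hN
              choose b g hb hg using fun c' : ℕ => hK _ (hy c') N hN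
              have h1 := hd N hN (∏ c' ∈ Finset.range M, b c')
                (Finset.prod_ne_zero_iff.2 fun c' _ => hb c')
                ⟨∏ c' ∈ Finset.range M, g c', by
                  rw [Finset.prod_congr rfl (fun c' _ => hg c'), Finset.prod_mul_distrib,
                    map_prod, Finset.prod_pow]⟩
              rw [cnt_prod v _ (fun c' _ => hb c'), hd0, sub_zero] at h1
              have h2 : (N : ℤ) ∣ ∑ c' ∈ Finset.range M,
                  (WithZero.log (w (u - (c' : C))) + cnt v (b c')) := by
                refine Finset.dvd_sum fun c' hc' => ?_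
                exact class_val v w hw q (hval c') (sub_ne_zero.2
                  (hex c' (Finset.mem_range.1 hc'))) hN (hb c') (hg c')
              rw [Finset.sum_add_distrib] at h2
              have h3 := dvd_sub h2 h1
              refine Eq.subst (motive := fun t : ℤ => _ ∣ t) ?_ h3
              ring
            by_contra hne
            set S := ∑ c' ∈ Finset.range M, WithZero.log (w (u - (c' : C)))
            have h2 := h1 (S.natAbs + 1) (Nat.succ_pos _)
            have h3 := Int.natAbs_dvd_natAbs.2 h2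
            rw [Int.natAbs_natCast] at h3
            have h4 := Nat.le_of_dvd (Int.natAbs_pos.2 hne) h3
            omega
          have hne : ∀ c' ∈ Finset.range M, w (u - (c' : C)) ≠ 0 := fun c' hc' =>
            (Valuation.ne_zero_iff _).2 (sub_ne_zero.2 (hex c' (Finset.mem_range.1 hc')))
          by_cases hu1 : w u ≤ 1
          · have h1 : ∀ c' ∈ Finset.range M, WithZero.log (w (u - (c' : C))) ≤ 0 := by
              intro c' hc'
              have h2 : w (u - (c' : C)) ≤ 1 := Valuation.map_sub_le _ hu1 (hwn c')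
              rw [← WithZero.log_one]
              exact (WithZero.log_le_log (hne c' hc') one_ne_zero).2 h2
            exact (Finset.sum_eq_zero_iff_of_nonpos h1).1 hS c (Finset.mem_range.2 hc)
          · exfalso
            rw [not_le] at hu1
            have h1 : ∀ c' ∈ Finset.range M, 0 < WithZero.log (w (u - (c' : C))) := by
              intro c' hc'
              have h2 : w (u - (c' : C)) = w u := by
                have h3 := Valuation.map_sub_eq_of_lt_right w
                  (x := (c' : C)) (y := u) (lt_of_le_of_lt (hwn c') hu1)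
                rw [← h3, Valuation.map_sub_swap]
              rw [h2, ← WithZero.log_one]
              exact (WithZero.log_lt_log one_ne_zero (by rw [← h2]; exact hne c' hc')).2 hu1
            have h2 := Finset.sum_pos h1 ⟨c, Finset.mem_range.2 hc⟩
            rw [hS] at h2
            exact lt_irrefl _ h2
  · -- the value is infinite
    have hyi : q.val y⁻¹ 0 := Plc.val_inv_of_notMem hyW
    have hy0 : y ≠ 0 := by
      rintro rfl
      exact hyW (zero_mem _)
    have h1v : ∀ c' : ℕ, q.val ((y - (c' : F0)) * y⁻¹) 1 := by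
      intro c'
      have h2 := (Plc.val_one (pl := q)).sub ((Plc.val_natCast (pl := q) c').mul hyi)
      rw [mul_zero, sub_zero] at h2
      have h3 : (y - (c' : F0)) * y⁻¹ = 1 - (c' : F0) * y⁻¹ := by
        field_simp
      rwa [h3]
    have hq : ∀ c' c'' : ℕ, q.val ((y - (c' : F0)) / (y - (c'' : F0))) 1 := by
      intro c' c''
      have h2 := (h1v c').mul ((h1v c'').inv one_ne_zero)
      rw [inv_one, mul_one] at h2
      have h3 : (y - (c' : F0)) * y⁻¹ * ((y - (c'' : F0)) * y⁻¹)⁻¹ =
          (y - (c' : F0)) / (y - (c'' : F0)) := by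
        have := hy c''
        field_simp
      rwa [h3] at h2
    have hcmp : ∀ (N : ℕ), 0 < N → ∀ (c' c'' : ℕ) (a a' : k) (h h' : F0), a ≠ 0 → a' ≠ 0 →
        y - (c' : F0) = algebraMap k F0 a * h ^ N → y - (c'' : F0) = algebraMap k F0 a' * h' ^ N →
        (N : ℤ) ∣ cnt v a - cnt v a' := by
      intro N hN c' c'' a a' h h' ha ha' e1 e2
      have h2 := class_val v w hw q (hq c' c'') one_ne_zero hN (a := a * a'⁻¹)
        (mul_ne_zero ha (inv_ne_zero ha')) (h := h / h') (by
          rw [e1, e2, map_mul, map_inv₀, div_pow, mul_div_mul_comm]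
          rw [div_eq_mul_inv (algebraMap k F0 a)])
      rw [map_one, WithZero.log_one, zero_add, cnt_mul v ha (inv_ne_zero ha')] at h2
      have h3 : cnt v a'⁻¹ = - cnt v a' := by
        have h4 := cnt_mul v ha' (inv_ne_zero ha')
        rw [mul_inv_cancel₀ ha'] at h4
        have h5 : cnt v (1 : k) = 0 := by
          have h6 := cnt_pow v (1 : k) 0
          simpa using h6
        rw [h5] at h4
        omega
      rw [h3] at h2
      exact h2
    have hmain : ∀ N : ℕ, 0 < N → ∃ (b : k) (g : F0), b ≠ 0 ∧
        y - (c : F0) = algebraMap k F0 b * g ^ N ∧ ((M * N : ℕ) : ℤ) ∣ M * cnt v b - d := by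
      intro N hN
      have hMN : 0 < M * N := Nat.mul_pos hM hN
      choose b g hb hg using fun c' : ℕ => hK _ (hy c') (M * N) hMN
      refine ⟨b c, g c ^ M, hb c, by rw [← pow_mul]; exact hg c, ?_⟩
      have h1 := hd (M * N) hMN (∏ c' ∈ Finset.range M, b c')
        (Finset.prod_ne_zero_iff.2 fun c' _ => hb c')
        ⟨∏ c' ∈ Finset.range M, g c', by
          rw [Finset.prod_congr rfl (fun c' _ => hg c'), Finset.prod_mul_distrib,
            map_prod, Finset.prod_pow]⟩
      rw [cnt_prod v _ (fun c' _ => hb c')] at h1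
      have h2 : ((M * N : ℕ) : ℤ) ∣ ∑ c' ∈ Finset.range M, (cnt v (b c) - cnt v (b c')) :=
        Finset.dvd_sum fun c' _ =>
          hcmp (M * N) hMN c c' _ _ _ _ (hb c) (hb c') (hg c) (hg c')
      rw [Finset.sum_sub_distrib, Finset.sum_const, Finset.card_range, nsmul_eq_mul] at h2
      have h3 := dvd_add h2 h1
      refine Eq.subst (motive := fun t : ℤ => _ ∣ t) ?_ h3
      ring
    obtain ⟨e, he⟩ : (M : ℤ) ∣ d := by
      obtain ⟨b, g, hb, hg, h⟩ := hmain 1 one_pos
      rw [mul_one] at h
      have h2 : (M : ℤ) ∣ M * cnt v b := Dvd.intro _ rfl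
      have h3 := dvd_sub h2 h
      rwa [sub_sub_cancel] at h3
    have hM0 : (M : ℤ) ≠ 0 := by exact_mod_cast hM.ne'
    refine ⟨e, ?_, ?_⟩
    · rintro N hN a ha ⟨h, hh⟩
      obtain ⟨b, g, hb, hg, h2⟩ := hmain N hN
      rw [he, ← mul_sub, Nat.cast_mul] at h2
      have h3 := Int.dvd_of_mul_dvd_mul_left hM0 h2
      have h4 := hcmp N hN c c a b h g ha hb hh hg
      have h5 := dvd_add h4 h3
      refine Eq.subst (motive := fun t : ℤ => _ ∣ t) ?_ h5
      ring
    · intro hd0 _
      rw [hd0] at he
      exact (mul_eq_zero.1 he.symm).resolve_left hM0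

end loc

end Pool.Agent.Helper39.AD
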