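import Pool.Agent.Helper39.AD.Loc

/-!
# Orders outside a finite set of places (not a result)
-/

set_option autoImplicit false
set_option linter.unusedSectionVars false

open Polynomial IsDedekindDomain NumberField nonZeroDivisors

namespace Pool.Agent.Helper39.AD

open Pool.Agent.TH954 Pool.Agent.Y791.BS Pool.Agent.Y791.BF Pool.Agent.Y791.BC
  Pool.Agent.Y791.BC.Leg

variable {k : Type} [Field k] [NumberField k] {F0 : Type} [Field F0] [Algebra k F0]

/-- the completion of `k` as a place -/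
noncomputable def iv (v : HeightOneSpectrum (𝓞 k)) : PlF k :=
  { L := k, v := v, φ := algebraMap k (v.adicCompletion k) }

lemma quot_val {C : Type} [Field C] [Algebra k C] [CharZero C] (q : Plc k F0 C) {y : F0}
    (hy : ∀ c : ℕ, y - (c : F0) ≠ 0) {c c0 : ℕ} (h1 : ¬ q.val y (c : C)) (h2 : ¬ q.val y (c0 : C)) :
    ∃ x : C, x ≠ 0 ∧ q.val ((y - (c : F0)) / (y - (c0 : F0))) x := by
  by_cases hyW : y ∈ q.W
  · obtain ⟨u, hu⟩ := Plc.val_of_mem hyW
    have hc : u - (c : C) ≠ 0 := by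
      intro h
      rw [sub_eq_zero.1 h] at hu
      exact h1 hu
    have hc0 : u - (c0 : C) ≠ 0 := by
      intro h
      rw [sub_eq_zero.1 h] at hu
      exact h2 hu
    refine ⟨(u - (c : C)) * (u - (c0 : C))⁻¹, mul_ne_zero hc (inv_ne_zero hc0), ?_⟩
    rw [div_eq_mul_inv]
    exact (hu.sub (Plc.val_natCast c)).mul ((hu.sub (Plc.val_natCast c0)).inv hc0)
  · have hyi : q.val y⁻¹ 0 := Plc.val_inv_of_notMem hyW
    have hy0 : y ≠ 0 := by
      rintro rfl
      exact hyW (zero_mem _)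
    have h1v : ∀ c' : ℕ, q.val ((y - (c' : F0)) * y⁻¹) 1 := by
      intro c'
      have h2 := (Plc.val_one (pl := q)).sub ((Plc.val_natCast (pl := q) c').mul hyi)
      rw [mul_zero, sub_zero] at h2
      have h3 : (y - (c' : F0)) * y⁻¹ = 1 - (c' : F0) * y⁻¹ := by
        field_simp
      rwa [h3]
    refine ⟨1, one_ne_zero, ?_⟩
    have h2 := (h1v c).mul ((h1v c0).inv one_ne_zero)
    rw [inv_one, mul_one] at h2
    have h3 : (y - (c : F0)) * y⁻¹ * ((y - (c0 : F0)) * y⁻¹)⁻¹ =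
        (y - (c : F0)) / (y - (c0 : F0)) := by
      have := hy c0
      field_simp
    rwa [h3] at h2

/-- the norms of the quotients -/
theorem ratNorm_of_orders (q : ∀ i : PlF k, Plc k F0 i.Lv) (hchi : ∀ i : PlF k, CharZero i.Lv)
    {n M : ℕ} (T : Finset (HeightOneSpectrum (𝓞 k))) (hM : T.card + (2 * n + 1) ≤ M) {y : F0}
    (hy : ∀ c : ℕ, y - (c : F0) ≠ 0)
    (hint : ∀ x : F0, IsAlgebraic k x → ∃ c, algebraMap k F0 c = x)
    (hK : ∀ x : F0, x ≠ 0 → ∀ N : ℕ, 0 < N → ∃ (a : k) (g : F0), a ≠ 0 ∧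
      x = algebraMap k F0 a * g ^ N)
    {d : HeightOneSpectrum (𝓞 k) → ℤ} {b : ℤ} (hb : ∀ v ∉ T, |d v| ≤ b)
    (hd : ∀ v ∉ T, ∀ N : ℕ, 0 < N → ∀ a : k, a ≠ 0 →
      (∃ h : F0, ∏ c ∈ Finset.range M, (y - (c : F0)) = algebraMap k F0 a * h ^ N) →
      (N : ℤ) ∣ cnt v a - d v) :
    ∃ G : Finset ℕ, 2 * n + 1 ≤ G.card ∧ ∃ c0 : ℕ,
      ∀ c ∈ G, RatNorm k ((y - (c : F0)) / (y - (c0 : F0))) := by
  classical
  have hM0 : 0 < M := by omega
  -- the good numbers
  let G : Finset ℕ := (Finset.range M).filter fun c =>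
    ∀ v ∈ T, ¬ (q (iv v)).val y (c : (iv v).Lv)
  let Bd : Finset ℕ := (Finset.range M).filter fun c =>
    ¬ ∀ v ∈ T, ¬ (q (iv v)).val y (c : (iv v).Lv)
  have hBd : Bd.card ≤ T.card := by
    have hch : ∀ c ∈ Bd, ∃ v, v ∈ T ∧ (q (iv v)).val y (c : (iv v).Lv) := by
      intro c hc
      have h1 := (Finset.mem_filter.1 hc).2
      push Not at h1
      exact h1
    refine Finset.card_le_card_of_forall_subsingleton
      (fun (c : ℕ) (v : HeightOneSpectrum (𝓞 k)) => (q (iv v)).val y (c : (iv v).Lv)) hch ?_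
    intro v _ c hc c' hc'
    have h3 := hc.2.unique hc'.2
    have := hchi (iv v)
    exact_mod_cast h3
  have hG : 2 * n + 1 ≤ G.card := by
    have h1 : G.card + Bd.card = M := by
      have := Finset.card_filter_add_card_filter_not (s := Finset.range M)
        (fun c : ℕ => ∀ v ∈ T, ¬ (q (iv v)).val y (c : (iv v).Lv))
      rwa [Finset.card_range] at this
    omega
  obtain ⟨c0, hc0⟩ : G.Nonempty := by
    rw [← Finset.card_pos]
    omega
  refine ⟨G, hG, c0, fun c hc => ?_⟩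
  have hne : (y - (c : F0)) / (y - (c0 : F0)) ≠ 0 := div_ne_zero (hy c) (hy c0)
  refine ratNorm hint hK hne ?_
  -- almost all orders are zero
  have hfin : ∀ᶠ v : HeightOneSpectrum (𝓞 k) in Filter.cofinite, v ∉ T → d v = 0 := by
    obtain ⟨a, g, ha, hg⟩ := hK (∏ c ∈ Finset.range M, (y - (c : F0)))
      (Finset.prod_ne_zero_iff.2 fun c _ => hy c) (b.toNat + 1) (Nat.succ_pos _)
    filter_upwards [cnt_finite (a := a)] with v hv hvT
    have h1 := hd v hvT (b.toNat + 1) (Nat.succ_pos _) a ha ⟨g, hg⟩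
    have h2 := hb v hvT
    have hb0 : 0 ≤ b := (abs_nonneg _).trans h2
    rw [hv, zero_sub, dvd_neg] at h1
    have h3 : ((b.toNat + 1 : ℕ) : ℤ) = b + 1 := by
      rw [Nat.cast_succ, Int.toNat_of_nonneg hb0]
    rw [h3] at h1
    by_contra hne
    have h5 := Int.le_of_dvd (abs_pos.2 hne) ((dvd_abs _ _).2 h1)
    omega
  have hval : ∀ (v : HeightOneSpectrum (𝓞 k)) (a : k), (Valued.v : Valuation (v.adicCompletion k)
      (WithZero (Multiplicative ℤ))) (algebraMap k (v.adicCompletion k) a) = v.valuation k a :=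
    fun v a => v.valuedAdicCompletion_eq_valuation' a
  have hloc : ∀ v : HeightOneSpectrum (𝓞 k), ∃ e : ℤ, (∀ N : ℕ, 0 < N → ∀ a : k, a ≠ 0 →
      (∃ h : F0, (y - (c : F0)) / (y - (c0 : F0)) = algebraMap k F0 a * h ^ N) →
      (N : ℤ) ∣ cnt v a - e) ∧
      (v ∉ T → d v = 0 → (∀ j : ℕ, j < M → 0 < j → cnt v (j : k) = 0) → e = 0) := by
    intro v
    by_cases hvT : v ∈ T
    · have := hchi (iv v)
      obtain ⟨x, hx0, hx⟩ := quot_val (q (iv v)) hy ((Finset.mem_filter.1 hc).2 v hvT)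
        ((Finset.mem_filter.1 hc0).2 v hvT)
      refine ⟨- WithZero.log ((Valued.v : Valuation (v.adicCompletion k)
        (WithZero (Multiplicative ℤ))) x), ?_, fun h => absurd hvT h⟩
      rintro N hN a ha ⟨h, hh⟩
      have h1 := @class_val k _ _ F0 _ _ v (iv v).Lv _ (iv v).instAlg (Valued.v : Valuation
        (v.adicCompletion k) (WithZero (Multiplicative ℤ))) (hval v) (q (iv v)) _ x hx hx0 N hN a ha
        h hh
      rw [sub_neg_eq_add, add_comm]
      exact h1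
    · have hex : ∀ c : ℕ, c < M → ∃ e : ℤ, (∀ N : ℕ, 0 < N → ∀ a : k, a ≠ 0 →
          (∃ h : F0, y - (c : F0) = algebraMap k F0 a * h ^ N) → (N : ℤ) ∣ cnt v a - e) ∧
          (d v = 0 → (∀ j : ℕ, j < M → 0 < j → cnt v (j : k) = 0) → e = 0) := fun c hc =>
        @exists_order k _ _ F0 _ _ v (iv v).Lv _ (iv v).instAlg (Valued.v : Valuation
          (v.adicCompletion k) (WithZero (Multiplicative ℤ))) (hval v) (q (iv v))
          M hM0 y hy hK (d v) (hd v hvT) c hc
      obtain ⟨e1, h1, h1'⟩ := hex c (Finset.mem_range.1 (Finset.mem_filter.1 hc).1)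
      obtain ⟨e0, h0, h0'⟩ := hex c0 (Finset.mem_range.1 (Finset.mem_filter.1 hc0).1)
      refine ⟨e1 - e0, ?_, fun _ hd0 hj => by rw [h1' hd0 hj, h0' hd0 hj, sub_zero]⟩
      rintro N hN a ha ⟨h, hh⟩
      obtain ⟨a0, g0, ha0, hg0⟩ := hK _ (hy c0) N hN
      have h2 := h0 N hN a0 ha0 ⟨g0, hg0⟩
      have h3 := h1 N hN (a * a0) (mul_ne_zero ha ha0) ⟨h * g0, by
        rw [div_eq_iff (hy c0)] at hh
        rw [hh, hg0, map_mul, mul_pow]
        ring⟩
      rw [cnt_mul v ha ha0] at h3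
      have h4 := dvd_sub h3 h2
      refine Eq.subst (motive := fun t : ℤ => _ ∣ t) ?_ h4
      ring
  choose e he1 he2 using hloc
  have hfin2 : ∀ᶠ v : HeightOneSpectrum (𝓞 k) in Filter.cofinite, e v = 0 := by
    have h2 : ∀ᶠ v : HeightOneSpectrum (𝓞 k) in Filter.cofinite,
        ∀ j ∈ Finset.range M, cnt v (j : k) = 0 :=
      (Filter.eventually_all_finset _).2 fun j _ => cnt_finite
    have h3 : ∀ᶠ v : HeightOneSpectrum (𝓞 k) in Filter.cofinite, v ∉ T := by
      rw [Filter.eventually_cofinite]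
      refine T.finite_toSet.subset fun v hv => ?_
      simpa using hv
    filter_upwards [hfin, h2, h3] with v hv1 hv2 hv3
    exact he2 v hv3 (hv1 hv3) fun j hj _ => hv2 j (Finset.mem_range.2 hj)
  obtain ⟨E, hE⟩ := exists_ideal e hfin2
  exact ⟨E, fun N hN a ha hh => hE N hN a ha fun v => he1 v N hN a ha hh⟩

end Pool.Agent.Helper39.AD
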