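import Pool.Agent.Helper39.AD.Core
import Pool.Agent.Helper88.FX.Final

/-!
# Sections the Kummer classes of which have ideals (not a result)
-/

set_option autoImplicit false
set_option linter.unusedSectionVars false

open Polynomial IsDedekindDomain NumberField

namespace Pool.Agent.Helper39.AD

open Pool.Agent.TH954 Pool.Agent.Y791.BS Pool.Agent.Y791.BF Pool.Agent.Y791.BC
  Pool.Agent.Y791.BC.Leg

section lvl

variable {k : Type} [Field k] [NumberField k] {M : Type} [Field M] [CharZero M] [IsAlgClosed M]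
    [Algebra k M] (A : SAct k M) (pl : ∀ i : PlF k, Plc k M (AlgebraicClosure i.Lv))
    (hpl : ∀ i, GeoPlc A (pl i))
    (hdim : ∀ x : M, (∀ w : AlgebraicClosure k, x ≠ A.j w) →
      ∀ t : M, IsAlgebraic (Algebra.adjoin k {x}) t)

include hpl hdim in
/-- the stable valuation ring -/
theorem good (hObs : S_ObsFG) (k' : IntermediateField k M) [FiniteDimensional k k']
    (hk' : ∀ (σ : k →ₐ[ℚ] M) (a : k), σ a ∈ k')
    (y : A.fix) (hyc : ∀ w : AlgebraicClosure k, (y : M) ≠ A.j w)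
    (hI : ∀ c : ℕ, c < 2 * Module.finrank ℚ k + 1 → RatNorm k (y - (c : A.fix))) :
    ∃ W : ValuationSubring M, GoodW A W := by
  classical
  have hchi : ∀ i : PlF k, CharZero i.Lv := fun i => charZero_compl i.v
  choose q hqW hqv using fun i : PlF k => exists_fixPlc A (hpl i)
  have hint : ∀ x : A.fix, IsAlgebraic k x → ∃ c, algebraMap k A.fix c = x := by
    intro x hx
    obtain ⟨w, hw⟩ := alg_range A.j (hx.algHom A.fix.val)
    have hw' : A.j w = (x : M) := hw
    obtain ⟨c, hc⟩ := A.fix_j (z := w) (by rw [hw']; exact x.2)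
    refine ⟨c, Subtype.ext ?_⟩
    change algebraMap k M c = (x : M)
    rw [← hw', ← hc, A.j.commutes]
  have hK : ∀ x : A.fix, x ≠ 0 → ∀ N : ℕ, 0 < N → ∃ (a : k) (g : A.fix), a ≠ 0 ∧
      x = algebraMap k A.fix a * g ^ N := by
    intro x hx N hN
    obtain ⟨a, ha, g, hg, h⟩ := A.kummer (f := (x : M)) x.2
      (fun h => hx (Subtype.ext h)) hN
    exact ⟨a, ⟨g, hg⟩, ha, Subtype.ext h⟩
  have hy0 : ∀ c : ℕ, y - (c : A.fix) ≠ 0 := by
    intro c h
    apply hyc (c : AlgebraicClosure k)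
    rw [map_natCast, sub_eq_zero.1 h]
    simp
  -- the finite extension
  let ψ : k' →+* M := (k'.val : k' →+* M)
  let σ' : (k →ₐ[ℚ] M) → (k →+* k') := fun σ => (σ : k →+* M).codRestrict k' (hk' σ)
  have hσ : ∀ σ a, ψ (σ' σ a) = σ a := fun σ a => rfl
  obtain ⟨Ψ, hΨ0, hΨ⟩ := core hint hK q hchi hy0 hI ψ σ' hσ
  obtain ⟨κ, μ, α, hκ, hα, hκψ⟩ := exists_lvl2 A.j k' ψ (by
    ext y
    constructor
    · rintro ⟨z, rfl⟩
      exact z.2
    · intro hz
      exact ⟨⟨y, hz⟩, rfl⟩)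
  let inst : Algebra k' M := ((A.j : AlgebraicClosure k →+* M).comp κ).toAlgebra
  have hM : ∀ c : k', @algebraMap k' M _ _ inst c = A.j (κ c) := fun c => rfl
  obtain ⟨A1, g, hg, hj, h1, h2⟩ := exists_base A μ κ hκ hM
  choose pl1 hpl1 hval1 using exists_places2 A pl hpl μ κ hκ hM A1 g hj h1
  -- the embedding `μ`
  let σ0 : k →ₐ[ℚ] M := (algebraMap k M).toRatAlgHom
  have hμ : μ = σ' σ0 := by
    apply RingHom.ext
    intro c
    apply ψ.injective
    rw [hσ]
    change ψ (μ c) = algebraMap k M c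
    rw [← hκψ, hκ, A.j.commutes]
  have hk1 : Algebra.EssFiniteType ℚ k' := by
    have h1 : Algebra.EssFiniteType k k' := inferInstance
    exact Algebra.EssFiniteType.comp ℚ k k'
  -- a rational number which is not a root
  obtain ⟨e, he⟩ : ∃ e : ℚ, Ψ.eval e ≠ 0 := by
    by_contra hcon
    push Not at hcon
    exact hΨ0 (Polynomial.funext fun x => by rw [hcon x, eval_zero])
  have hΨy : aeval (y : M) (Ψ.map (algebraMap ℚ k')) ≠ 0 := by
    intro h
    have halg : IsAlgebraic k' (y : M) :=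
      ⟨Ψ.map (algebraMap ℚ k'), (Polynomial.map_ne_zero_iff (algebraMap ℚ k').injective).2 hΨ0, h⟩
    obtain ⟨w, hw⟩ := alg_range A1.j halg
    apply hyc (g w)
    rw [← hj, hw]
  have hye : (y : M) - algebraMap k' M (algebraMap ℚ k' e) ≠ 0 := by
    intro h
    apply hyc (κ (algebraMap ℚ k' e))
    rw [← hM, sub_eq_zero.1 h]
  have he' : (Ψ.map (algebraMap ℚ k')).eval (algebraMap ℚ k' e) ≠ 0 := by
    rw [eval_map, eval₂_at_apply]
    exact (_root_.map_ne_zero _).2 he
  set t : M := aeval (y : M) (Ψ.map (algebraMap ℚ k')) /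
    ((y : M) - algebraMap k' M (algebraMap ℚ k' e)) ^
      ((Ψ.map (algebraMap ℚ k')).natDegree + 1) with ht
  have ht0 : t ≠ 0 := div_ne_zero hΨy (pow_ne_zero _ hye)
  have htv : ∀ i : PlF k', (pl1 i).val t 0 := by
    intro i
    refine Pool.Agent.Y791.BS.val_quot _ _ he' (fun hW => ?_)
    obtain ⟨c, hc⟩ := Plc.val_of_mem hW
    let i0 : PlF k := ⟨i.L, i.v, i.φ.comp μ⟩
    have hc0 : (pl i0).val (y : M) c := hval1 i y (fun τ => y.2 τ) c hc
    have hyW : y ∈ (q i0).W := by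
      rw [hqW i0]
      exact hc0.mem
    obtain ⟨u, hu⟩ := Plc.val_of_mem hyW
    have hcu : c = algebraMap i.Lv (AlgebraicClosure i.Lv) u :=
      hc0.unique ((hqv i0 y u).1 hu)
    have h0 := hΨ i0 i.φ σ0 (by
      change i.φ.comp μ = i.φ.comp (σ' σ0)
      rw [hμ]) u hu
    have h1 := Pool.Agent.Y791.BC.Leg.val_aeval (Q := pl1 i) hc (Ψ.map (algebraMap ℚ k'))
    have hch := hchi i0
    have h2 : aeval c (Ψ.map (algebraMap ℚ k')) = 0 := by
      have h3 := congrArg (algebraMap i.Lv (AlgebraicClosure i.Lv)) h0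
      rw [map_zero, eval_map, hom_eval₂] at h3
      rw [aeval_def, eval₂_eq_eval_map, Polynomial.map_map, eval_map, hcu]
      convert h3 using 2
      exact RingHom.ext fun x => (eq_ratCast _ x).trans (eq_ratCast _ x).symm
    rw [h2] at h1
    exact h1
  have hdim1 : ∀ z : M, Transcendental k' z → IsAlgebraic (Algebra.adjoin k' {z}) t := by
    intro z hz
    refine isAlgebraic_adjoin_of μ (fun c => ?_) (hdim z (fun w hw => hz ?_) t)
    · rw [hM, hκ, A.j.commutes]
    · rw [hw, ← g.apply_symm_apply w, ← hj]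
      exact (Algebra.IsAlgebraic.isAlgebraic (R := k') (g.symm w)).algHom A1.j
  obtain ⟨W, hW⟩ := goodW_of_zero A1 (hObs k' hk1) pl1 hpl1 ht0 htv hdim1
  exact ⟨W, goodW_base A κ hα A1 g hj h2 hW⟩

end lvl

end Pool.Agent.Helper39.AD
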