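import Pool.Agent.Helper88.FX.E2b
import Pool.Agent.Helper39.AD.Int

/-!
# Norms of the local values of a function and Kummer classes (not a result)
-/

set_option autoImplicit false
set_option linter.unusedSectionVars false

open Polynomial IsDedekindDomain NumberField

namespace Pool.Agent.Helper39.AD

open Pool.Agent.TH954 Pool.Agent.Y791.BF Pool.Agent.Helper88.FX.E2

section norm

variable {k : Type} [Field k] [NumberField k] {F0 : Type} [Field F0] [Algebra k F0]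
  (q : ∀ i : PlF k, Plc k F0 i.Lv) (y : F0)
  {K1 Ω : Type} [Field K1] [Field Ω] [CharZero Ω] [IsAlgClosed Ω]
  (ψ : K1 →+* Ω) (σ' : (k →ₐ[ℚ] Ω) → (k →+* K1))
  (hσ : ∀ σ a, ψ (σ' σ a) = σ a)

/-- the norm of `Z - y` at a place, without the poles -/
noncomputable def nm (i : PlF k) (φ : K1 →+* i.Lv) : i.Lv[X] :=
  ∏ σ : k →ₐ[ℚ] Ω, ff q y i (φ.comp (σ' σ))

lemma nm_monic (i : PlF k) (φ : K1 →+* i.Lv) : (nm q y σ' i φ).Monic :=
  monic_prod_of_monic _ _ fun σ _ => ff_monic q y i (φ.comp (σ' σ))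

lemma nm_natDegree_le (i : PlF k) (φ : K1 →+* i.Lv) :
    (nm q y σ' i φ).natDegree ≤ Module.finrank ℚ k := by
  rw [nm, natDegree_prod_of_monic _ _ fun σ _ => ff_monic q y i (φ.comp (σ' σ))]
  refine (Finset.sum_le_card_nsmul _ _ 1 fun σ _ =>
    ff_natDegree_le q y i (φ.comp (σ' σ))).trans ?_
  rw [Finset.card_univ, smul_eq_mul, mul_one, AlgHom.card ℚ k Ω]

include hσ in
/-- the norm of a constant -/
lemma norm_eq {L : Type} [Field L] [CharZero L] (φ : K1 →+* L) (a : k) :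
    ∏ σ : k →ₐ[ℚ] Ω, φ (σ' σ a) = ((Algebra.norm ℚ a : ℚ) : L) := by
  have hch : CharZero K1 := by
    refine ⟨fun m n h => ?_⟩
    have h1 := congrArg φ h
    rw [map_natCast, map_natCast] at h1
    exact Nat.cast_injective h1
  have h1 : ∏ σ : k →ₐ[ℚ] Ω, σ' σ a = ((Algebra.norm ℚ a : ℚ) : K1) := by
    apply ψ.injective
    rw [map_prod, map_ratCast]
    simp_rw [hσ]
    have h2 := Algebra.norm_eq_prod_embeddings ℚ Ω a
    rw [← h2]
    simp
  rw [← map_prod, h1, map_ratCast]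

include hσ in
/-- the class of the norm -/
lemma nm_class (i : PlF k) [CharZero i.Lv] (φ : K1 →+* i.Lv) {M : ℕ} (hM : 0 < M) {c c' : ℕ}
    {a a' : k} (ha : a ≠ 0) (ha' : a' ≠ 0) {g g' : F0}
    (h : y - (c : F0) = algebraMap k F0 a * g ^ M)
    (h' : y - (c' : F0) = algebraMap k F0 a' * g' ^ M)
    (h1 : (nm q y σ' i φ).eval (c : i.Lv) ≠ 0) (h2 : (nm q y σ' i φ).eval (c' : i.Lv) ≠ 0) :
    ∃ γ : i.Lv, γ ≠ 0 ∧ (nm q y σ' i φ).eval (c : i.Lv) * ((Algebra.norm ℚ a' : ℚ) : i.Lv) =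
      (nm q y σ' i φ).eval (c' : i.Lv) * ((Algebra.norm ℚ a : ℚ) : i.Lv) * γ ^ M := by
  unfold nm at h1 h2 ⊢
  rw [eval_prod] at h1 h2 ⊢
  rw [eval_prod]
  have hf : ∀ σ : k →ₐ[ℚ] Ω, ∃ γ : i.Lv, γ ≠ 0 ∧
      (ff q y i (φ.comp (σ' σ))).eval (c : i.Lv) * φ (σ' σ a') =
      (ff q y i (φ.comp (σ' σ))).eval (c' : i.Lv) * φ (σ' σ a) * γ ^ M :=
    fun σ => ff_class q y i (φ.comp (σ' σ)) ha ha' hM h h'
      (Finset.prod_ne_zero_iff.1 h1 σ (Finset.mem_univ σ))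
      (Finset.prod_ne_zero_iff.1 h2 σ (Finset.mem_univ σ))
  choose γ hγ0 hγ using hf
  refine ⟨∏ σ, γ σ, Finset.prod_ne_zero_iff.2 fun σ _ => hγ0 σ, ?_⟩
  rw [← norm_eq ψ σ' hσ φ a, ← norm_eq ψ σ' hσ φ a', ← Finset.prod_mul_distrib,
    ← Finset.prod_mul_distrib, ← Finset.prod_pow, ← Finset.prod_mul_distrib]
  exact Finset.prod_congr rfl fun σ _ => hγ σ

end norm

end Pool.Agent.Helper39.AD
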