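import Pool.Agent.Helper39.AD.Loc
import Pool.Agent.Helper39.AD.Conv

/-!
# One class decides (not a result)
-/

set_option autoImplicit false
set_option linter.unusedSectionVars false

open Polynomial IsDedekindDomain NumberField nonZeroDivisors

namespace Pool.Agent.Helper39.AD

open Pool.Agent.TH954 Pool.Agent.Y791.BS Pool.Agent.Y791.BF Pool.Agent.Y791.BC
  Pool.Agent.Y791.BC.Leg Pool.Agent.Helper39.BS

section abs

variable {k : Type} [Field k] [NumberField k] {F0 : Type} [Field F0] [Algebra k F0]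

/-- from the product to the factors -/
theorem hasIdeal_of_prod (q : ∀ i : PlF k, Plc k F0 i.Lv) {M : ℕ} (hM : 0 < M) {y : F0}
    (hy : ∀ c : ℕ, y - (c : F0) ≠ 0)
    (hK : ∀ x : F0, x ≠ 0 → ∀ N : ℕ, 0 < N → ∃ (a : k) (g : F0), a ≠ 0 ∧
      x = algebraMap k F0 a * g ^ N)
    (h : HasIdeal k (∏ c ∈ Finset.range M, (y - (c : F0)))) (c : ℕ) (hc : c < M) :
    HasIdeal k (y - (c : F0)) := by
  classical
  obtain ⟨D, hD⟩ := h
  have hloc : ∀ v : HeightOneSpectrum (𝓞 k), ∃ e : ℤ, (∀ N : ℕ, 0 < N → ∀ a : k, a ≠ 0 →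
      (∃ h : F0, y - (c : F0) = algebraMap k F0 a * h ^ N) → (N : ℤ) ∣ cnt v a - e) ∧
      (FractionalIdeal.count k v (D : FractionalIdeal (𝓞 k)⁰ k) = 0 →
        (∀ j : ℕ, j < M → 0 < j → cnt v (j : k) = 0) → e = 0) := by
    intro v
    let i : PlF k := { L := k, v := v, φ := algebraMap k (v.adicCompletion k) }
    refine @exists_order k _ _ F0 _ _ v i.Lv _ i.instAlg (Valued.v : Valuation (v.adicCompletion k)
      (WithZero (Multiplicative ℤ))) (fun a => v.valuedAdicCompletion_eq_valuation' a) (q i)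
      M hM y hy hK (FractionalIdeal.count k v (D : FractionalIdeal (𝓞 k)⁰ k)) ?_ c hc
    intro N hN a ha hh
    obtain ⟨I, hI⟩ := hD N hN a ha hh
    exact orders_of D I hI v
  choose e he1 he2 using hloc
  have hfin : ∀ᶠ v : HeightOneSpectrum (𝓞 k) in Filter.cofinite, e v = 0 := by
    have h1 := FractionalIdeal.finite_factors (D : FractionalIdeal (𝓞 k)⁰ k)
    have h2 : ∀ᶠ v : HeightOneSpectrum (𝓞 k) in Filter.cofinite,
        ∀ j ∈ Finset.range M, cnt v (j : k) = 0 :=
      (Filter.eventually_all_finset _).2 fun j _ => cnt_finite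
    filter_upwards [h1, h2] with v hv1 hv2
    exact he2 v hv1 fun j hj _ => hv2 j (Finset.mem_range.2 hj)
  obtain ⟨E, hE⟩ := exists_ideal e hfin
  exact ⟨E, fun N hN a ha hh => hE N hN a ha fun v => he1 v N hN a ha hh⟩

variable (hint : ∀ x : F0, IsAlgebraic k x → ∃ c, algebraMap k F0 c = x)

include hint in
lemma hasIdeal_one : HasIdeal k (1 : F0) := by
  refine ⟨1, fun N hN a ha => ?_⟩
  rintro ⟨h, hh⟩
  have haF : algebraMap k F0 a ≠ 0 := (_root_.map_ne_zero _).2 ha
  have h1 : h ^ N = algebraMap k F0 a⁻¹ := by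
    rw [map_inv₀]
    field_simp
    rw [mul_comm, ← hh]
  obtain ⟨b, hb⟩ := hint h (IsAlgebraic.of_pow hN (by
    rw [h1]
    exact isAlgebraic_algebraMap _))
  have h2 : b ^ N = a⁻¹ := by
    apply (algebraMap k F0).injective
    rw [map_pow, hb, h1]
  have hb0 : b ≠ 0 := by
    rintro rfl
    rw [zero_pow hN.ne'] at h2
    exact ha (inv_eq_zero.1 h2.symm)
  refine ⟨Units.mk0 (FractionalIdeal.spanSingleton _ b⁻¹)
    (FractionalIdeal.spanSingleton_ne_zero_iff.2 (inv_ne_zero hb0)), ?_⟩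
  rw [one_mul, Units.val_pow_eq_pow_val, Units.val_mk0, FractionalIdeal.spanSingleton_pow, inv_pow,
    h2, inv_inv]

include hint in
lemma hasIdeal_mul (hK : ∀ x : F0, x ≠ 0 → ∀ N : ℕ, 0 < N → ∃ (a : k) (g : F0), a ≠ 0 ∧
      x = algebraMap k F0 a * g ^ N) {g g' : F0} (hg : g ≠ 0) (hg' : g' ≠ 0)
    (h : HasIdeal k g) (h' : HasIdeal k g') : HasIdeal k (g * g') := by
  obtain ⟨D, hD⟩ := h
  obtain ⟨D', hD'⟩ := h'
  refine ⟨D * D', fun N hN a ha => ?_⟩
  rintro ⟨z, hz⟩
  obtain ⟨b, u, hb, hu⟩ := hK g hg N hN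
  obtain ⟨b', u', hb', hu'⟩ := hK g' hg' N hN
  obtain ⟨I, hI⟩ := hD N hN b hb ⟨u, hu⟩
  obtain ⟨I', hI'⟩ := hD' N hN b' hb' ⟨u', hu'⟩
  have hz0 : z ≠ 0 := by
    rintro rfl
    rw [zero_pow hN.ne', mul_zero] at hz
    exact mul_ne_zero hg hg' hz
  have hbF : algebraMap k F0 b ≠ 0 := (_root_.map_ne_zero _).2 hb
  have hbF' : algebraMap k F0 b' ≠ 0 := (_root_.map_ne_zero _).2 hb'
  have haF : algebraMap k F0 a ≠ 0 := (_root_.map_ne_zero _).2 ha
  have h1 : (u * u' / z) ^ N = algebraMap k F0 (a / (b * b')) := by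
    rw [map_div₀, map_mul, div_pow, mul_pow, div_eq_div_iff (pow_ne_zero _ hz0)
      (mul_ne_zero hbF hbF'), ← hz, hu, hu']
    ring
  obtain ⟨r, hr⟩ := hint _ (IsAlgebraic.of_pow hN (by
    rw [h1]
    exact isAlgebraic_algebraMap _))
  have h2 : a = b * b' * r ^ N := by
    have h3 : r ^ N = a / (b * b') := by
      apply (algebraMap k F0).injective
      rw [map_pow, hr, h1]
    rw [h3]
    field_simp
  have hr0 : r ≠ 0 := by
    rintro rfl
    rw [zero_pow hN.ne', mul_zero] at h2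
    exact ha h2
  refine ⟨I * I' * Units.mk0 (FractionalIdeal.spanSingleton _ r)
    (FractionalIdeal.spanSingleton_ne_zero_iff.2 hr0), ?_⟩
  rw [h2, ← FractionalIdeal.spanSingleton_mul_spanSingleton,
    ← FractionalIdeal.spanSingleton_mul_spanSingleton, hI, hI', ← FractionalIdeal.spanSingleton_pow]
  simp only [Units.val_mul, Units.val_pow_eq_pow_val, Units.val_mk0]
  ring

include hint in
lemma hasIdeal_prod (hK : ∀ x : F0, x ≠ 0 → ∀ N : ℕ, 0 < N → ∃ (a : k) (g : F0), a ≠ 0 ∧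
      x = algebraMap k F0 a * g ^ N) {y : F0} (hy : ∀ c : ℕ, y - (c : F0) ≠ 0)
    (h : ∀ c : ℕ, HasIdeal k (y - (c : F0))) (M : ℕ) :
    HasIdeal k (∏ c ∈ Finset.range M, (y - (c : F0))) := by
  induction M with
  | zero =>
    rw [Finset.prod_range_zero]
    exact hasIdeal_one hint
  | succ M ih =>
    rw [Finset.prod_range_succ]
    exact hasIdeal_mul hint hK (Finset.prod_ne_zero_iff.2 fun c _ => hy c) (hy M) ih (h M)

end abs

section

variable {k : Type} [Field k] [NumberField k]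
    {F Ω B : Type} [Field F] [Field Ω] [Field B] [Algebra k F] [Algebra F Ω]
    [Algebra k Ω] [Algebra k B] [IsScalarTower k F Ω]
    [IsAlgClosure F Ω] [IsAlgClosure k B] (s : GalSection k F Ω B)

/-- the class of the product has an ideal if and only if the classes of the factors have -/
theorem hi_prod_iff {f : F} (hft : Transcendental k f) {M : ℕ} (hM : 0 < M) :
    (HI s (∏ c ∈ Finset.range M, (f - (c : F))) → ∀ c : ℕ, c < M → HI s (f - (c : F))) ∧
    ((∀ c : ℕ, HI s (f - (c : F))) → HI s (∏ c ∈ Finset.range M, (f - (c : F)))) := by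
  classical
  have hΩ1 : IsAlgClosed Ω := IsAlgClosure.isAlgClosed F
  have hΩ2 : Algebra.IsAlgebraic F Ω := IsAlgClosure.isAlgebraic
  have hcF : CharZero F := charZero_of_injective_algebraMap (algebraMap k F).injective
  have hcΩ : CharZero Ω := charZero_of_injective_algebraMap (algebraMap F Ω).injective
  set A := toSAct s with hA
  have hloc : ∀ i : PlF k, s.GeometricOver i.Lv (AlgebraicClosure i.Lv) := fun i =>
    Pool.Agent.N890.KO.koenigsmann i.L i.v k F Ω B s
  choose pl hpl using fun i : PlF k => toSAct_geo s (hloc i)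
  have hchi : ∀ i : PlF k, CharZero i.Lv := fun i => charZero_compl i.v
  choose q hqW hqv using fun i : PlF k => exists_fixPlc A (hpl i)
  have hmem : ∀ g : F, algebraMap F Ω g ∈ A.fix := fun g =>
    (mem_fixS s).2 fun σ => (s.s σ).commutes g
  have hint : ∀ x : A.fix, IsAlgebraic k x → ∃ c, algebraMap k A.fix c = x := by
    intro x hx
    obtain ⟨w, hw⟩ := alg_range A.j (hx.algHom A.fix.val)
    have hw' : A.j w = (x : Ω) := hw
    obtain ⟨c, hc⟩ := A.fix_j (z := w) (by rw [hw']; exact x.2)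
    refine ⟨c, Subtype.ext ?_⟩
    change algebraMap k Ω c = (x : Ω)
    rw [← hw', ← hc, A.j.commutes]
  have hK : ∀ x : A.fix, x ≠ 0 → ∀ N : ℕ, 0 < N → ∃ (a : k) (g : A.fix), a ≠ 0 ∧
      x = algebraMap k A.fix a * g ^ N := by
    intro x hx N hN
    obtain ⟨a, ha, g, hg, h⟩ := A.kummer (f := (x : Ω)) x.2
      (fun h => hx (Subtype.ext h)) hN
    exact ⟨a, ⟨g, hg⟩, ha, Subtype.ext h⟩
  set y : A.fix := ⟨algebraMap F Ω f, hmem f⟩ with hydef
  have hyc : ∀ c : ℕ, y - (c : A.fix) = ⟨algebraMap F Ω (f - (c : F)), hmem _⟩ := by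
    intro c
    refine Subtype.ext ?_
    change algebraMap F Ω f - (((c : A.fix) : A.fix) : Ω) = algebraMap F Ω (f - (c : F))
    rw [map_sub, map_natCast]
    rfl
  have hyp : ∏ c ∈ Finset.range M, (y - (c : A.fix)) =
      ⟨algebraMap F Ω (∏ c ∈ Finset.range M, (f - (c : F))), hmem _⟩ := by
    refine Subtype.ext ?_
    change A.fix.val (∏ c ∈ Finset.range M, (y - (c : A.fix))) =
      algebraMap F Ω (∏ c ∈ Finset.range M, (f - (c : F)))
    rw [map_prod, map_prod]
    exact Finset.prod_congr rfl fun c _ => congrArg Subtype.val (hyc c)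
  have hy0 : ∀ c : ℕ, y - (c : A.fix) ≠ 0 := by
    intro c h
    rw [hyc] at h
    have h1 : algebraMap F Ω (f - (c : F)) = 0 := congrArg Subtype.val h
    have h2 : f - (c : F) = 0 := (_root_.map_eq_zero _).1 h1
    apply hft
    rw [sub_eq_zero.1 h2]
    exact isAlgebraic_natCast c
  constructor
  · intro h c hc
    rw [hi_iff s _ (hmem _), ← hyp] at h
    rw [hi_iff s _ (hmem _), ← hyc]
    exact hasIdeal_of_prod q hM hy0 hK h c hc
  · intro h
    rw [hi_iff s _ (hmem _), ← hyp]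
    refine hasIdeal_prod hint hK hy0 (fun c => ?_) M
    rw [hyc, ← hi_iff s _ (hmem _)]
    exact h c

end

end Pool.Agent.Helper39.AD
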